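import Pool.Agent.Lib.MP_cd2b7c_an.NA.Defs

/-! Basic properties of averages and of the lazy walk. -/

open Finset

namespace Pool.Agent.Lib.MP_cd2b7c_an.NA

variable {G : Type*} [Group G]

theorem sum_cons {Λ M : Type*} [Fintype Λ] [AddCommMonoid M] {t : ℕ} (F : (Fin (t + 1) → Λ) → M) :
    ∑ w, F w = ∑ l, ∑ w : Fin t → Λ, F (Fin.cons l w) := by
  rw [← (Fin.consEquiv fun _ => Λ).sum_comp, Fintype.sum_prod_type]
  rfl

theorem wd_cons {Λ : Type*} (σ : Λ → G) (t : ℕ) (l : Λ) (w : Fin t → Λ) :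
    wd σ (t + 1) (Fin.cons l w) = σ l * wd σ t w := by
  simp [wd, List.ofFn_succ]

theorem av_pow {A Λ : Type*} [Ring A] [Algebra ℂ A] [Fintype Λ] (ρ : G →* A) (σ : Λ → G) (t : ℕ) :
    av ρ σ ^ t = av ρ (wd σ t) := by
  induction t with
  | zero => simp [av, wd]
  | succ t ih =>
    rw [pow_succ', ih]
    simp only [av, sum_cons, wd_cons, map_mul, Fintype.card_fun, Fintype.card_fin, smul_mul_smul_comm,
      sum_mul_sum]
    congr 1
    push_cast
    rw [pow_succ', mul_inv]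

theorem av_conj {A Λ : Type*} [Ring A] [Algebra ℂ A] [Fintype Λ] (ρ : G →* A) (σ : Λ → G) (x : G) :
    av ρ (fun l => x * σ l * x⁻¹) * ρ x = ρ x * av ρ σ := by
  simp only [av, smul_mul_assoc, mul_smul_comm, sum_mul, mul_sum, ← map_mul, inv_mul_cancel_right]

theorem lt_conj {ι : Type*} (s : ι → G) (x : G) :
    lt (fun i => x * s i * x⁻¹) = fun l => x * lt s l * x⁻¹ := by
  funext l
  rcases l with ⟨i, _ | _, _ | _⟩ <;> simp [lt, mul_assoc]

theorem walk_conj {A ι : Type*} [Ring A] [Algebra ℂ A] [Fintype ι] (ρ : G →* A) (s : ι → G) (x : G)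
    (t : ℕ) : av ρ (lt fun i => x * s i * x⁻¹) ^ t * ρ x = ρ x * av ρ (lt s) ^ t := by
  have h : SemiconjBy (ρ x) (av ρ (lt s)) (av ρ (lt fun i => x * s i * x⁻¹)) := by
    rw [lt_conj]; exact (av_conj ρ _ x).symm
  exact (h.pow_right t).symm

theorem gn_conj {κ : Type*} (c : κ → G) (z : G × G) (x : G) :
    gn c (x * z.1 * x⁻¹, x * z.2) = fun o => x * gn c z o * x⁻¹ := by
  funext o
  rcases o with _ | i <;> simp [gn, mul_assoc]

section normed

variable {E : Type*} [NormedAddCommGroup E] [NormedSpace ℂ E] {ρ : G →* (E →L[ℂ] E)}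
  {Λ : Type*} [Fintype Λ]

theorem av_apply (σ : Λ → G) (v : E) :
    av ρ σ v = (Fintype.card Λ : ℂ)⁻¹ • ∑ l, ρ (σ l) v := by
  simp [av]

theorem norm_avg_le [Nonempty Λ] (f : Λ → E) {b : ℝ} (h : ∀ l, ‖f l‖ ≤ b) :
    ‖(Fintype.card Λ : ℂ)⁻¹ • ∑ l, f l‖ ≤ b := by
  have c0 : (0 : ℝ) < Fintype.card Λ := by exact_mod_cast Fintype.card_pos
  rw [norm_smul, norm_inv, Complex.norm_natCast, inv_mul_le_iff₀ c0]
  refine (norm_sum_le _ _).trans ((sum_le_sum fun l _ => h l).trans (le_of_eq ?_))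
  simp

theorem norm_av_le [Nonempty Λ] (nr : ∀ x v, ‖ρ x v‖ = ‖v‖) (σ : Λ → G) (v : E) :
    ‖av ρ σ v‖ ≤ ‖v‖ := by
  rw [av_apply]
  exact norm_avg_le _ fun l => (nr _ _).le

theorem norm_av_pow_le [Nonempty Λ] (nr : ∀ x v, ‖ρ x v‖ = ‖v‖) (σ : Λ → G) (v : E) {m n : ℕ}
    (h : m ≤ n) : ‖(av ρ σ ^ n) v‖ ≤ ‖(av ρ σ ^ m) v‖ := by
  induction n, h using Nat.le_induction with
  | base => exact le_rfl
  | succ n _ ih => rw [pow_succ', mul_apply_eq_comp]; exact (norm_av_le nr _ _).trans ih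

theorem norm_av_sub_le [Nonempty Λ] (σ : Λ → G) {v : E} {b : ℝ} (h : ∀ l, ‖ρ (σ l) v - v‖ ≤ b) :
    ‖av ρ σ v - v‖ ≤ b := by
  have c0 : (Fintype.card Λ : ℂ) ≠ 0 := by exact_mod_cast Fintype.card_ne_zero
  have : av ρ σ v - v = (Fintype.card Λ : ℂ)⁻¹ • ∑ l, (ρ (σ l) v - v) := by
    rw [av_apply, sum_sub_distrib, smul_sub, sum_const, card_univ, ← Nat.cast_smul_eq_nsmul ℂ,
      inv_smul_smul₀ c0]
  rw [this]
  exact norm_avg_le _ h

theorem mv_comp {A B : E →L[ℂ] E} (hA : ∀ v, ‖A v‖ ≤ ‖v‖) {v : E} {a b : ℝ} (h1 : ‖A v - v‖ ≤ a)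
    (h2 : ‖B v - v‖ ≤ b) : ‖A (B v) - v‖ ≤ a + b := by
  have : A (B v) - v = (A v - v) + A (B v - v) := by rw [map_sub]; abel
  rw [this]
  exact (norm_add_le _ _).trans (add_le_add h1 ((hA _).trans h2))

theorem mv_mul (nr : ∀ x v, ‖ρ x v‖ = ‖v‖) {x y : G} {v : E} {a b : ℝ} (h1 : ‖ρ x v - v‖ ≤ a)
    (h2 : ‖ρ y v - v‖ ≤ b) : ‖ρ (x * y) v - v‖ ≤ a + b := by
  rw [map_mul, mul_apply_eq_comp]
  exact mv_comp (fun v => (nr x v).le) h1 h2

theorem mv_inv (nr : ∀ x v, ‖ρ x v‖ = ‖v‖) (x : G) (v : E) : ‖ρ x⁻¹ v - v‖ = ‖ρ x v - v‖ := by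
  rw [← nr x, map_sub, ← mul_apply_eq_comp, ← map_mul, mul_inv_cancel, map_one, one_apply_eq_self,
    norm_sub_rev]

theorem mv_pow {A : E →L[ℂ] E} (hA : ∀ v, ‖A v‖ ≤ ‖v‖) {v : E} {a : ℝ} (h : ‖A v - v‖ ≤ a)
    (n : ℕ) : ‖(A ^ n) v - v‖ ≤ n * a := by
  induction n with
  | zero => simp
  | succ n ih =>
    rw [pow_succ', mul_apply_eq_comp, Nat.cast_succ]
    linarith [mv_comp hA h ih]

theorem mv_lt (nr : ∀ x v, ‖ρ x v‖ = ‖v‖) {ι : Type*} (s : ι → G) {v : E} {b : ℝ} (b0 : 0 ≤ b)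
    (h : ∀ i, ‖ρ (s i) v - v‖ ≤ b) (l : ι × Bool × Bool) : ‖ρ (lt s l) v - v‖ ≤ b := by
  rcases l with ⟨i, _ | _, _ | _⟩
  · simpa [lt] using b0
  · simpa [lt] using h i
  · simpa [lt, mv_inv nr] using h i
  · simpa [lt] using b0

theorem av_mem {M : Submodule ℂ E} (hM : ∀ x, ∀ v ∈ M, ρ x v ∈ M) (σ : Λ → G) {v : E}
    (hv : v ∈ M) : av ρ σ v ∈ M := by
  rw [av_apply]
  exact M.smul_mem _ (M.sum_mem fun l _ => hM _ _ hv)

theorem av_pow_mem {M : Submodule ℂ E} (hM : ∀ x, ∀ v ∈ M, ρ x v ∈ M) (σ : Λ → G) (t : ℕ) {v : E}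
    (hv : v ∈ M) : (av ρ σ ^ t) v ∈ M := by
  classical
  rw [av_pow]
  exact av_mem hM _ hv

end normed

section hilbert

variable {V : Type*} [NormedAddCommGroup V] [InnerProductSpace ℂ V] {π : G →* (V →L[ℂ] V)}
  (iso : ∀ x u v, inner ℂ (π x u) (π x v) = inner ℂ u v) {ι : Type*} [Fintype ι]
include iso

theorem nr_of_iso (x : G) (v : V) : ‖π x v‖ = ‖v‖ := by
  rw [norm_eq_sqrt_re_inner (𝕜 := ℂ), iso, ← norm_eq_sqrt_re_inner]

theorem inner_inv (x : G) (u v : V) : inner ℂ (π x⁻¹ u) v = inner ℂ u (π x v) := by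
  rw [← iso x, ← mul_apply_eq_comp, ← map_mul, mul_inv_cancel, map_one, one_apply_eq_self]

theorem inner_walk (s : ι → G) (u v : V) : inner ℂ u (av π (lt s) v) =
    (4 * Fintype.card ι : ℂ)⁻¹ * ∑ i, inner ℂ (u + π (s i) u) (v + π (s i) v) := by
  rw [av_apply, inner_smul_right, inner_sum, Fintype.sum_prod_type]
  congr 1
  · simp only [Fintype.card_prod, Fintype.card_bool]
    push_cast
    ring
  · refine sum_congr rfl fun i _ => ?_
    have := inner_inv iso (s i)⁻¹ u v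
    rw [inv_inv] at this
    simp [Fintype.sum_prod_type, lt, iso, this]

theorem walk_symm (s : ι → G) (u v : V) :
    inner ℂ (av π (lt s) u) v = inner ℂ u (av π (lt s) v) := by
  rw [← inner_conj_symm, inner_walk iso, inner_walk iso, map_mul, map_sum]
  simp only [inner_conj_symm, map_inv₀, map_mul, map_natCast, map_ofNat]

theorem walk_pow_symm (s : ι → G) (t : ℕ) (u v : V) :
    inner ℂ ((av π (lt s) ^ t) u) v = inner ℂ u ((av π (lt s) ^ t) v) := by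
  induction t generalizing v with
  | zero => simp
  | succ t ih =>
    rw [pow_succ', mul_apply_eq_comp, walk_symm iso, ih, ← mul_apply_eq_comp, ← pow_succ, pow_succ']

theorem walk_re (s : ι → G) (v : V) : (inner ℂ v (av π (lt s) v)).re =
    (4 * Fintype.card ι : ℝ)⁻¹ * ∑ i, ‖v + π (s i) v‖ ^ 2 := by
  rw [inner_walk iso]
  simp only [inner_self_eq_norm_sq_to_K]
  rw [← Complex.ofReal_re (_ * _)]
  congr 1
  push_cast
  rfl

theorem walk_energy [Nonempty ι] (s : ι → G) (v : V) : ∑ i, ‖π (s i) v - v‖ ^ 2 =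
    4 * Fintype.card ι * (‖v‖ ^ 2 - (inner ℂ v (av π (lt s) v)).re) := by
  have c0 : (0 : ℝ) < Fintype.card ι := by exact_mod_cast Fintype.card_pos
  have e : ∀ i, ‖π (s i) v - v‖ ^ 2 = 4 * ‖v‖ ^ 2 - ‖v + π (s i) v‖ ^ 2 := fun i => by
    have := parallelogram_law_with_norm ℂ v (π (s i) v)
    rw [nr_of_iso iso, norm_sub_rev] at this
    linarith
  rw [walk_re iso]
  simp only [e, sum_sub_distrib, sum_const, card_univ, nsmul_eq_mul]
  field_simp

theorem walk_pow_nonneg (s : ι → G) (j : ℕ) (v : V) :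
    0 ≤ (inner ℂ v ((av π (lt s) ^ j) v)).re := by
  obtain ⟨i, rfl | rfl⟩ := j.even_or_odd'
  · rw [two_mul, pow_add, mul_apply_eq_comp, ← walk_pow_symm iso, inner_self_eq_norm_sq_to_K]
    norm_cast
    exact sq_nonneg _
  · rw [two_mul, add_assoc, pow_add, mul_apply_eq_comp, ← walk_pow_symm iso, pow_succ',
      mul_apply_eq_comp, walk_re iso]
    positivity

theorem energy_le [Nonempty ι] (s : ι → G) (m : ℕ) (v : V) (i : ι) :
    (2 * m + 1) * ‖π (s i) ((av π (lt s) ^ m) v) - (av π (lt s) ^ m) v‖ ^ 2 ≤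
      4 * Fintype.card ι * ‖v‖ ^ 2 := by
  set W := av π (lt s)
  let n : ℕ → ℝ := fun j => (inner ℂ v ((W ^ j) v)).re
  have anti : Antitone fun j => n j - n (j + 1) := antitone_nat_of_succ_le fun j => by
    have h := walk_pow_nonneg iso s j (v - W v)
    have e1 : (W ^ j) (W v) = (W ^ (j + 1)) v := by rw [pow_succ, mul_apply_eq_comp]
    have e2 : ∀ k, inner ℂ (W v) ((W ^ k) v) = inner ℂ v ((W ^ (k + 1)) v) := fun k => by
      rw [walk_symm iso, pow_succ', mul_apply_eq_comp]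
    rw [map_sub, inner_sub_left, inner_sub_right, inner_sub_right, e1, e2, e2] at h
    simp only [Complex.sub_re] at h
    simp only [n]
    linarith
  have h1 : (2 * m + 1 : ℝ) * (n (2 * m) - n (2 * m + 1)) ≤ ‖v‖ ^ 2 := by
    have h2 := card_nsmul_le_sum (range (2 * m + 1)) (fun j => n j - n (j + 1)) _
      fun j hj => anti (Nat.le_of_lt_succ (mem_range.1 hj))
    rw [sum_range_sub', card_range, nsmul_eq_mul] at h2
    have h3 : n 0 = ‖v‖ ^ 2 := by
      simp only [n, pow_zero, one_apply_eq_self, inner_self_eq_norm_sq_to_K]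
      norm_cast
    have h4 : 0 ≤ n (2 * m + 1) := walk_pow_nonneg iso s _ v
    push_cast at h2
    linarith
  have h5 : n (2 * m) - n (2 * m + 1) =
      ‖(W ^ m) v‖ ^ 2 - (inner ℂ ((W ^ m) v) (W ((W ^ m) v))).re := by
    congr 1
    · simp only [n]
      rw [two_mul, pow_add, mul_apply_eq_comp, ← walk_pow_symm iso, inner_self_eq_norm_sq_to_K]
      norm_cast
    · simp only [n]
      rw [two_mul, add_assoc, pow_add, mul_apply_eq_comp, ← walk_pow_symm iso, pow_succ',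
        mul_apply_eq_comp]
  have h6 := single_le_sum (f := fun i => ‖π (s i) ((W ^ m) v) - (W ^ m) v‖ ^ 2)
    (fun _ _ => sq_nonneg _) (mem_univ i)
  rw [walk_energy iso, ← h5] at h6
  have c0 : (0 : ℝ) ≤ 4 * Fintype.card ι := by positivity
  calc _ ≤ (2 * m + 1) * (4 * Fintype.card ι * (n (2 * m) - n (2 * m + 1))) := by gcongr
    _ = 4 * Fintype.card ι * ((2 * m + 1) * (n (2 * m) - n (2 * m + 1))) := by ring
    _ ≤ _ := by gcongr

end hilbert

end Pool.Agent.Lib.MP_cd2b7c_an.NA
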