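import Pool.Agent.Lib.MP_cd2b7c_an.NA.Av

/-! The return estimate for one copy at a monomial vector. -/

open Finset Pointwise
open scoped BigOperators

namespace Pool.Agent.Lib.MP_cd2b7c_an.NA

/-- The symmetric generating set. -/
def sh {G κ : Type*} [Group G] (c : κ → G) : Set G := {x | x = 1 ∨ ∃ i, x = c i ∨ x = (c i)⁻¹}

theorem one_mem_sh {G κ : Type*} [Group G] (c : κ → G) (L : ℕ) : 1 ∈ sh c ^ L :=
  Set.one_mem_pow (Or.inl rfl)

theorem mv_sh {G κ E : Type*} [Group G] [NormedAddCommGroup E] [NormedSpace ℂ E]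
    {ρ : G →* (E →L[ℂ] E)} (nr : ∀ x v, ‖ρ x v‖ = ‖v‖) {c : κ → G} {v : E} {b : ℝ} (b0 : 0 ≤ b)
    (h : ∀ i, ‖ρ (c i) v - v‖ ≤ b) (L : ℕ) {x : G} (hx : x ∈ sh c ^ L) : ‖ρ x v - v‖ ≤ L * b := by
  induction L generalizing x with
  | zero =>
    rw [pow_zero, Set.mem_one] at hx
    simp [hx]
  | succ L ih =>
    rw [pow_succ'] at hx
    obtain ⟨g, hg, w, hw, rfl⟩ := hx
    have : ‖ρ g v - v‖ ≤ b := by
      rcases hg with rfl | ⟨i, rfl | rfl⟩
      · simpa using b0
      · exact h i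
      · rw [mv_inv nr]; exact h i
    rw [Nat.cast_succ]
    linarith [mv_mul nr this (ih hw)]

theorem sh_induction {G κ : Type*} [Group G] {c : κ → G}
    (hc : Subgroup.closure (Set.range c) = ⊤) {P : G → Prop} (h1 : P 1)
    (h : ∀ g ∈ sh c, ∀ x, P x → P (g * x)) (x : G) : P x := by
  have hx : x ∈ Subgroup.closure (Set.range c) := hc ▸ Subgroup.mem_top x
  induction hx using Subgroup.closure_induction_left with
  | one => exact h1
  | mul_left g hg y _ ih => obtain ⟨i, rfl⟩ := hg; exact h _ (Or.inr ⟨i, Or.inl rfl⟩) _ ih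
  | inv_mul_cancel g hg y _ ih => obtain ⟨i, rfl⟩ := hg; exact h _ (Or.inr ⟨i, Or.inr rfl⟩) _ ih

variable {Q : Type*} [Group Q] [Fintype Q] {κ : Type*}

theorem reach {c : κ → Q} (hc : Subgroup.closure (Set.range c) = ⊤) (U : Subgroup Q) (L : ℕ) :
    (∀ x, ∃ w ∈ sh c ^ L, w⁻¹ * x ∈ U) ∨ L < ((fun x : Q => (x : Q ⧸ U)) '' (sh c ^ L)).ncard := by
  have sub : ∀ L, sh c ^ L ⊆ sh c ^ (L + 1) := fun L x hx => by
    rw [pow_succ']; exact ⟨1, Or.inl rfl, x, hx, one_mul x⟩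
  induction L with
  | zero => right; simp
  | succ L ih =>
    rcases ih with h | h
    · exact Or.inl fun x => (h x).imp fun w hw => ⟨sub L hw.1, hw.2⟩
    by_cases e : (fun x : Q => (x : Q ⧸ U)) '' (sh c ^ (L + 1)) ⊆
        (fun x : Q => (x : Q ⧸ U)) '' (sh c ^ L)
    · refine Or.inl fun x => (sh_induction hc (P := fun x => ∃ w ∈ sh c ^ L, w⁻¹ * x ∈ U)
        ⟨1, one_mem_sh c L, by simp⟩ ?_ x).imp fun w hw => ⟨sub L hw.1, hw.2⟩
      rintro g hg x ⟨w, hw, hx⟩
      obtain ⟨w', hw', e'⟩ := e ⟨g * w, by rw [pow_succ']; exact Set.mul_mem_mul hg hw, rfl⟩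
      refine ⟨w', hw', ?_⟩
      have := U.mul_mem (QuotientGroup.eq.1 e') hx
      simpa [mul_assoc] using this
    · exact Or.inr (lt_of_le_of_lt h (Set.ncard_lt_ncard ⟨Set.image_mono (sub L), e⟩))

theorem pow_sub_le {ζ : ℂ} (h1 : ‖ζ‖ = 1) (n : ℕ) : ‖ζ ^ n - 1‖ ≤ n * ‖ζ - 1‖ := by
  induction n with
  | zero => simp
  | succ n ih =>
    have h := norm_add_le (ζ * (ζ ^ n - 1)) (ζ - 1)
    rw [norm_mul, h1, show ζ * (ζ ^ n - 1) + (ζ - 1) = ζ ^ (n + 1) - 1 by ring] at h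
    rw [Nat.cast_succ]
    linarith

theorem root_eq_one {ζ : ℂ} (h1 : ‖ζ‖ = 1) {j R : ℕ} (j0 : 0 < j) (jR : j < R) (hj : ζ ^ j = 1)
    (h : R * ‖ζ - 1‖ ≤ 1) : ζ = 1 := by
  by_contra ne
  have e : ∑ i ∈ range j, ζ ^ i = 0 := by
    have := geom_sum_mul ζ j
    rw [hj, sub_self] at this
    exact (mul_eq_zero.1 this).resolve_right (sub_ne_zero.2 ne)
  have p0 : 0 < ‖ζ - 1‖ := norm_pos_iff.2 (sub_ne_zero.2 ne)
  have h2 : ‖∑ i ∈ range j, (ζ ^ i - 1)‖ ≤ ∑ i ∈ range j, j * ‖ζ - 1‖ :=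
    (norm_sum_le _ _).trans (sum_le_sum fun i hi => by
      have := pow_sub_le h1 i
      have h3 : (i : ℝ) ≤ j := by exact_mod_cast (mem_range.1 hi).le
      nlinarith)
  rw [sum_sub_distrib, e] at h2
  simp only [sum_const, card_range, nsmul_eq_mul, mul_one, zero_sub, norm_neg,
    Complex.norm_natCast] at h2
  have h4 : (j : ℝ) < R := by exact_mod_cast jR
  have h5 : (0 : ℝ) < j := by exact_mod_cast j0
  nlinarith [mul_pos h5 (mul_pos (sub_pos.2 h4) p0)]

theorem orth {H : Type*} [Group H] [Fintype H] (χ : H →* ℂ) (h1 : ∀ z, ‖χ z‖ = 1) (R : ℕ)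
    (h : ∀ j, 0 < j → j < R → χ ^ j ≠ 1) :
    ∑ z, ‖∑ j ∈ range R, χ z ^ j‖ ^ 2 = R * Fintype.card H := by
  induction R with
  | zero => simp
  | succ R ih =>
    have e : ∑ z, χ z * ∑ j ∈ range R, χ z ^ j = 0 := by
      simp only [mul_sum, ← pow_succ']
      rw [sum_comm]
      exact sum_eq_zero fun j hj =>
        sum_hom_units_eq_zero (χ ^ (j + 1)) (h _ j.succ_pos (by simpa using hj))
    have e2 : ∀ y : ℂ, ‖y + 1‖ ^ 2 = ‖y‖ ^ 2 + 2 * y.re + 1 := fun y => by
      simp only [Complex.sq_norm, Complex.normSq_apply, Complex.add_re, Complex.add_im,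
        Complex.one_re, Complex.one_im]
      ring
    simp only [geom_sum_succ, e2, norm_mul, h1, one_mul, sum_add_distrib, ← mul_sum]
    rw [ih fun j j0 hj => h j j0 (by omega), ← Complex.re_sum, e]
    simp [add_mul]

theorem sum_coset (U : Subgroup Q) [Fintype U] (z : Q → U) (hz : ∀ a (h : U), z (a * h) = z a * h)
    (F : U → ℝ) : Fintype.card U * ∑ a, F (z a) = Fintype.card Q * ∑ h, F h := by
  have e : ∀ h : U, ∑ a, F (z a) = ∑ a, F (z a * h) := fun h => by
    rw [← Equiv.sum_comp (Equiv.mulRight (h : Q))]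
    simp [hz]
  calc _ = ∑ h : U, ∑ a, F (z a * h) := by simp [← e]
    _ = ∑ a : Q, ∑ h, F h := by
        rw [sum_comm]
        exact sum_congr rfl fun a _ => Equiv.sum_comp (Equiv.mulLeft (z a)) F
    _ = _ := by simp

variable {V : Type*} [NormedAddCommGroup V] [InnerProductSpace ℂ V] {π : Q →* (V →L[ℂ] V)}
  (iso : ∀ x u v, inner ℂ (π x u) (π x v) = inner ℂ u v)
include iso

omit [Fintype Q] in
theorem coef {e u : V} (he : ‖e‖ = 1) {α b : ℝ} (hu : inner ℂ e u = α) {x : Q}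
    (h : ‖π x u - u‖ ≤ b) : ‖inner ℂ (π x e) u - α‖ ≤ b := by
  have e1 := inner_inv iso x⁻¹ e u
  rw [inv_inv] at e1
  rw [e1, ← hu, ← inner_sub_right]
  refine (norm_inner_le_norm _ _).trans ?_
  rwa [he, one_mul, mv_inv (nr_of_iso iso)]

theorem caseA {e u : V} (he : ‖e‖ = 1) {α : ℝ} (α0 : 0 < α) (hu : inner ℂ e u = α)
    (hn : ‖u‖ ^ 2 ≤ α) {U U' : Subgroup Q} (le : U' ≤ U)
    (ho : ∀ h ∈ U, h ∉ U' → inner ℂ (π h e) e = 0) {I R : ℕ} (hI : U.index ≤ I) {S : Set Q}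
    (hS : ∀ w ∈ S, ‖π w u - u‖ ≤ α / 2) (h : R * I < ((fun x : Q => (x : Q ⧸ U')) '' S).ncard) :
    R * α ≤ 4 := by
  classical
  set T := (fun x : Q => (x : Q ⧸ U')) '' S
  have := Fintype.ofFinite (Q ⧸ U)
  obtain ⟨y, -, hy⟩ := exists_lt_card_fiber_of_mul_lt_card_of_maps_to (s := T.toFinite.toFinset)
    (t := univ) (f := Subgroup.quotientMapOfLE le) (n := R) (fun _ _ => mem_univ _) (by
      rw [← Set.ncard_eq_toFinset_card, card_univ, ← Nat.card_eq_fintype_card, mul_comm]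
      exact lt_of_le_of_lt (Nat.mul_le_mul_left R hI) h)
  set F := T.toFinite.toFinset.filter fun x => Subgroup.quotientMapOfLE le x = y
  have hw : ∀ x : F, ∃ w ∈ S, (w : Q ⧸ U') = x := fun x =>
    T.toFinite.mem_toFinset.1 (mem_filter.1 x.2).1
  choose w wS hw using hw
  have on : Orthonormal ℂ fun x : F => π (w x) e := by
    refine ⟨fun x => by rw [nr_of_iso iso, he], fun x x' ne => ?_⟩
    change inner ℂ (π (w x) e) (π (w x') e) = 0
    rw [← inner_inv iso, ← mul_apply_eq_comp, ← map_mul]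
    refine ho _ (QuotientGroup.eq.1 ?_) fun hm => ne (Subtype.ext ?_)
    · have e1 := (mem_filter.1 x.2).2
      have e2 := (mem_filter.1 x'.2).2
      rw [← hw, Subgroup.quotientMapOfLE_apply_mk] at e1 e2
      rw [e1, e2]
    · rw [← hw, ← hw, QuotientGroup.eq.2 hm]
  have h1 := on.sum_inner_products_le (s := univ) u
  have h2 := card_nsmul_le_sum univ (fun x : F => ‖inner ℂ (π (w x) e) u‖ ^ 2) ((α / 2) ^ 2)
    fun x _ => by
      have h3 := coef iso he hu (hS _ (wS x))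
      have h4 := norm_sub_norm_le (α : ℂ) (inner ℂ (π (w x) e) u)
      rw [norm_sub_rev, Complex.norm_real, Real.norm_of_nonneg α0.le] at h4
      exact pow_le_pow_left₀ (by positivity) (by linarith) 2
  rw [card_univ, Fintype.card_coe, nsmul_eq_mul] at h2
  have h5 : (R : ℝ) ≤ F.card := by exact_mod_cast hy.le
  nlinarith [mul_nonneg (sub_nonneg.2 h5) (sq_nonneg α)]

theorem caseB {e u : V} (he : ‖e‖ = 1) {α b : ℝ} (b0 : 0 ≤ b) (hu : inner ℂ e u = α)
    (h0 : ∑ x, π x e = 0) {c : κ → Q} (hc : Subgroup.closure (Set.range c) = ⊤)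
    (hb : ∀ i, ‖π (c i) u - u‖ ≤ b) {U : Subgroup Q} {L : ℕ}
    (all : ∀ x, ∃ w ∈ sh c ^ L, w⁻¹ * x ∈ U)
    (h : ∀ z ∈ U, ‖π z u - u‖ ≤ (2 * L + 1) * b → π z e = e) : α ≤ L * b := by
  have nr := nr_of_iso iso
  have h1 : ∀ x, ∃ w ∈ sh c ^ L, π x e = π w e := sh_induction hc ⟨1, one_mem_sh c L, rfl⟩ <| by
    rintro g hg x ⟨w, hw, hx⟩
    obtain ⟨w', hw', hz⟩ := all (g * w)
    refine ⟨w', hw', ?_⟩
    have h2 := mv_mul nr ((mv_inv nr w' u).trans_le (mv_sh nr b0 hb L hw'))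
      (mv_mul nr (mv_sh nr b0 hb 1 (by rwa [pow_one])) (mv_sh nr b0 hb L hw))
    have h3 := congrArg (π w') (h _ hz (h2.trans (le_of_eq (by push_cast; ring))))
    rw [← mul_apply_eq_comp, ← map_mul, mul_inv_cancel_left] at h3
    rw [← h3, map_mul, map_mul, mul_apply_eq_comp, mul_apply_eq_comp, hx]
  have h4 := norm_avg_le (fun x => inner ℂ (π x e) u - (α : ℂ)) (b := L * b) fun x => by
    obtain ⟨w, hw, e1⟩ := h1 x
    rw [e1]
    exact coef iso he hu (mv_sh nr b0 hb L hw)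
  have c0 : (Fintype.card Q : ℂ) ≠ 0 := by exact_mod_cast Fintype.card_ne_zero
  rw [sum_sub_distrib, ← sum_inner, h0, inner_zero_left, zero_sub, sum_const, card_univ,
    nsmul_eq_mul, smul_neg, smul_eq_mul, inv_mul_cancel_left₀ c0, norm_neg, Complex.norm_real] at h4
  exact (le_abs_self α).trans h4

theorem base_e [Fintype κ] {e : V} (he : ‖e‖ = 1) (h0 : ∑ x, π x e = 0) {U : Subgroup Q} {I : ℕ}
    (hI : U.index ≤ I) (hm : ∀ h ∈ U, (∃ z : ℂ, π h e = z • e) ∨ inner ℂ (π h e) e = 0)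
    {c : κ → Q} (hc : Subgroup.closure (Set.range c) = ⊤) {R t : ℕ} (R0 : 0 < R)
    (ht : 8 * (Fintype.card κ + 1) * I ^ 2 * R ^ 5 ≤ t) :
    𝔼 a, ‖(av π (lt fun o : Option κ => o.elim a c) ^ t) e‖ ^ 2 ≤ 8 / R := by
  classical
  have nr := nr_of_iso iso
  have e0 : inner ℂ e e = 1 := by rw [inner_self_eq_norm_sq_to_K, he]; simp
  let U' : Subgroup Q :=
    { carrier := {h | h ∈ U ∧ ∃ z : ℂ, π h e = z • e}
      one_mem' := ⟨U.one_mem, 1, by simp⟩
      mul_mem' := by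
        rintro g h ⟨g1, y, hy⟩ ⟨h1, z, hz⟩
        exact ⟨U.mul_mem g1 h1, z * y, by rw [map_mul, mul_apply_eq_comp, hz, map_smul, hy, smul_smul]⟩
      inv_mem' := by
        rintro h ⟨h1, z, hz⟩
        have h2 := congrArg (π h⁻¹) hz
        rw [← mul_apply_eq_comp, ← map_mul, inv_mul_cancel, map_one, one_apply_eq_self,
          map_smul] at h2
        have z0 : z ≠ 0 := by
          rintro rfl
          rw [zero_smul] at h2
          simp [h2] at he
        exact ⟨U.inv_mem h1, z⁻¹, by rw [eq_inv_smul_iff₀ z0, ← h2]⟩ }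
  have hχ : ∀ z : U', π z e = inner ℂ e (π z e) • e := fun z => by
    obtain ⟨y, hy⟩ := z.2.2
    rw [hy, inner_smul_right, e0, mul_one]
  let χ : U' →* ℂ :=
    { toFun := fun z => inner ℂ e (π z e)
      map_one' := by simpa using e0
      map_mul' := fun y z => by
        rw [Subgroup.coe_mul, map_mul, mul_apply_eq_comp, hχ z, map_smul, inner_smul_right,
          inner_smul_right, e0, mul_one, mul_comm] }
  replace hχ : ∀ z : U', π z e = χ z • e := hχ
  have χ1 : ∀ z, ‖χ z‖ = 1 := fun z => by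
    have := nr z e
    rwa [hχ, norm_smul, he, mul_one] at this
  have I0 : 0 < I := lt_of_lt_of_le (Nat.pos_of_ne_zero Subgroup.FiniteIndex.index_ne_zero) hI
  have R1 : (1 : ℝ) ≤ R := by exact_mod_cast R0
  have L1 : (1 : ℝ) ≤ (R * I : ℕ) := by exact_mod_cast Nat.mul_pos R0 I0
  set L := R * I
  let α : Q → ℝ := fun a => ‖(av π (lt fun o : Option κ => o.elim a c) ^ t) e‖ ^ 2
  have α1 : ∀ a, α a ≤ 1 := fun a => by
    have := norm_av_pow_le nr (lt fun o : Option κ => o.elim a c) e (Nat.zero_le t)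
    rw [pow_zero, one_apply_eq_self, he] at this
    exact pow_le_one₀ (norm_nonneg _) this
  have key : ∀ a, 4 / R < α a → ∃ u, ∃ b : ℝ, 0 < b ∧ α a = 4 * R * L * b ∧ inner ℂ e u = α a ∧
      ‖u‖ ^ 2 ≤ α a ∧ ‖π a u - u‖ ≤ b ∧ ∀ i, ‖π (c i) u - u‖ ≤ b := fun a ha => by
    set W := av π (lt fun o : Option κ => o.elim a c)
    have a0 : 0 < α a := lt_trans (by positivity) ha
    have h1 : ∀ o : Option κ, ‖π (o.elim a c) ((W ^ t) ((W ^ t) e)) - (W ^ t) ((W ^ t) e)‖ ≤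
        α a / (4 * R * L) := fun o => by
      have h2 := energy_le iso (fun o : Option κ => o.elim a c) t ((W ^ t) e) o
      have h3 : (8 * (Fintype.card κ + 1) * I ^ 2 * R ^ 5 : ℝ) ≤ t := by exact_mod_cast ht
      have h4 : 4 ≤ α a * R := ((div_lt_iff₀ (by positivity)).1 ha).le
      rw [Fintype.card_option, Nat.cast_succ] at h2
      refine (pow_le_pow_iff_left₀ (norm_nonneg _) (by positivity) two_ne_zero).1
        (le_of_mul_le_mul_left (h2.trans ?_) (by positivity))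
      rw [div_pow, mul_div_assoc', le_div_iff₀ (by positivity)]
      change 4 * (Fintype.card κ + 1) * α a * _ ≤ _
      have h5 : (4 * R * L : ℝ) ^ 2 = 16 * (I ^ 2 * R ^ 4) := by simp only [L]; push_cast; ring
      rw [h5]
      calc _ = 16 * (Fintype.card κ + 1) * I ^ 2 * R ^ 4 * α a * 4 := by ring
        _ ≤ 16 * (Fintype.card κ + 1) * I ^ 2 * R ^ 4 * α a * (α a * R) := by gcongr
        _ = 2 * (8 * (Fintype.card κ + 1) * I ^ 2 * R ^ 5) * α a ^ 2 := by ring
        _ ≤ _ := by gcongr; linarith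
    refine ⟨(W ^ t) ((W ^ t) e), α a / (4 * R * L), by positivity, by field_simp, ?_, ?_,
      h1 none, fun i => h1 (some i)⟩
    · rw [← walk_pow_symm iso, inner_self_eq_norm_sq_to_K]
      simp [α]
    · have := norm_av_pow_le nr (lt fun o : Option κ => o.elim a c) ((W ^ t) e) (Nat.zero_le t)
      exact pow_le_pow_left₀ (norm_nonneg _) this 2
  have close : ∀ {u : V} {a b : ℝ} (z : U'), 0 < a → inner ℂ e u = a → ‖π z u - u‖ ≤ b →
      a * ‖χ z - 1‖ ≤ b := fun {u a b} z a0 hu h => by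
    have h1 := coef iso he hu h
    rwa [hχ, inner_smul_left, hu, ← sub_one_mul, norm_mul, Complex.norm_real,
      Real.norm_of_nonneg a0.le, ← map_one (starRingEnd ℂ), ← map_sub, Complex.norm_conj,
      mul_comm] at h1
  have easy : (∀ a, ¬ 4 / R < α a) → 𝔼 a, α a ≤ 8 / R := fun h =>
    expect_le univ_nonempty fun a _ => (not_lt.1 (h a)).trans (by gcongr; norm_num)
  rcases reach hc U' L with all | big
  swap
  · refine easy fun a ha => ?_
    obtain ⟨u, b, b0, hb, hu, hn, -, hs⟩ := key a ha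
    have h1 := caseA iso he (lt_trans (by positivity) ha) hu hn (U' := U') (fun _ h => h.1)
      (fun h hU hn => (hm h hU).resolve_left fun hz => hn ⟨hU, hz⟩) hI (S := sh c ^ L)
      (fun w hw => (mv_sh nr b0.le hs L hw).trans (by
        rw [hb]; nlinarith [mul_pos (lt_of_lt_of_le one_pos L1) b0])) big
    rw [div_lt_iff₀ (by positivity)] at ha
    linarith
  by_cases hj : ∀ j, 0 < j → j < R → χ ^ j ≠ 1
  swap
  · push Not at hj
    obtain ⟨j, j0, jR, hj⟩ := hj
    refine easy fun a ha => ?_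
    obtain ⟨u, b, b0, hb, hu, -, -, hs⟩ := key a ha
    have a0 : 0 < α a := lt_trans (by positivity) ha
    have h1 := caseB iso he b0.le hu h0 hc hs all fun z hz h => by
      have h2 := close ⟨z, hz⟩ a0 hu h
      have h3 : χ ⟨z, hz⟩ = 1 := root_eq_one (χ1 _) j0 jR (DFunLike.congr_fun hj _) (by
        refine le_of_mul_le_mul_left ?_ a0
        rw [mul_left_comm, mul_one]
        refine (mul_le_mul_of_nonneg_left h2 (by positivity)).trans ?_
        rw [hb]
        nlinarith [mul_pos (lt_of_lt_of_le one_pos R1) b0])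
      simpa [h3] using hχ ⟨z, hz⟩
    rw [hb] at h1
    nlinarith [mul_pos (lt_of_lt_of_le one_pos L1) b0]
  choose r hr hr' using fun y : Q ⧸ U' => all y.out
  let z : Q → U' := fun a => ⟨(r a)⁻¹ * a, by
    have := U'.mul_mem (hr' a) (QuotientGroup.eq.1 (QuotientGroup.out_eq' (a : Q ⧸ U')))
    simpa [mul_assoc] using this⟩
  have hz : ∀ a (h : U'), z (a * h) = z a * h := fun a h => Subtype.ext (by
    simp [z, QuotientGroup.mk_mul_of_mem a h.2, mul_assoc])
  let F : U' → ℝ := fun y => ‖∑ j ∈ range R, χ y ^ j‖ ^ 2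
  have hF : 𝔼 a, F (z a) = R := by
    have h1 := sum_coset U' z hz F
    have c0 : (0 : ℝ) < Fintype.card U' := by exact_mod_cast Fintype.card_pos
    have c1 : (0 : ℝ) < Fintype.card Q := by exact_mod_cast Fintype.card_pos
    rw [orth χ χ1 R hj] at h1
    rw [expect_eq_sum_div_card, card_univ, div_eq_iff c1.ne']
    exact mul_left_cancel₀ c0.ne' (by rw [h1]; ring)
  have pt : ∀ a, α a ≤ 4 / R + 4 / R ^ 2 * F (z a) := fun a => by
    rcases le_or_gt (α a) (4 / R) with ha | ha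
    · exact ha.trans (le_add_of_nonneg_right (by positivity))
    obtain ⟨u, b, b0, hb, hu, -, ha', hs⟩ := key a ha
    have a0 : 0 < α a := lt_trans (by positivity) ha
    have h1 := close (z a) a0 hu
      (mv_mul nr ((mv_inv nr _ u).trans_le (mv_sh nr b0.le hs L (hr a))) ha')
    have h2 : R * ‖χ (z a) - 1‖ ≤ 1 / 2 := by
      refine le_of_mul_le_mul_left ?_ a0
      rw [mul_left_comm]
      refine (mul_le_mul_of_nonneg_left h1 (by positivity)).trans ?_
      rw [hb]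
      nlinarith [mul_pos (lt_of_lt_of_le one_pos R1) b0]
    have h3 : ‖∑ j ∈ range R, (χ (z a) ^ j - 1)‖ ≤ ∑ j ∈ range R, (1 / 2 : ℝ) :=
      (norm_sum_le _ _).trans (sum_le_sum fun i hi => by
        have := pow_sub_le (χ1 (z a)) i
        have h3 : (i : ℝ) ≤ R := by exact_mod_cast (mem_range.1 hi).le
        nlinarith [norm_nonneg (χ (z a) - 1)])
    rw [sum_sub_distrib, norm_sub_rev] at h3
    simp only [sum_const, card_range, nsmul_eq_mul, mul_one] at h3
    have h4 := norm_sub_norm_le (R : ℂ) (∑ j ∈ range R, χ (z a) ^ j)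
    rw [Complex.norm_natCast] at h4
    have h5 : ((R : ℝ) / 2) ^ 2 ≤ F (z a) := pow_le_pow_left₀ (by positivity) (by linarith) 2
    have h6 : 1 ≤ 4 / (R : ℝ) ^ 2 * F (z a) := by
      rw [div_mul_eq_mul_div, le_div_iff₀ (by positivity)]
      linarith
    linarith [α1 a, show (0 : ℝ) ≤ 4 / R by positivity]
  refine (expect_le_expect fun a _ => pt a).trans (le_of_eq ?_)
  rw [expect_add_distrib, expect_const univ_nonempty, ← mul_expect, hF]
  field_simp
  norm_num

end Pool.Agent.Lib.MP_cd2b7c_an.NA
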