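import Pool.Agent.Lib.MP_cd2b7c_an.NA.Defs

/-! A vector whose translates are parallel or orthogonal to it. -/

open Finset

namespace Pool.Agent.Lib.MP_cd2b7c_an.NA

variable {Q : Type*} [Group Q] [Fintype Q] {V : Type*} [NormedAddCommGroup V]
  [InnerProductSpace ℂ V] [FiniteDimensional ℂ V] {π : Q →* (V →L[ℂ] V)}

omit [Fintype Q] in
/-- A commuting family has a joint eigenvector. -/
theorem mono_eig {A : Set Q} {M : Submodule ℂ V} (M0 : M ≠ ⊥) (hM : ∀ a ∈ A, ∀ v ∈ M, π a v ∈ M)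
    (hc : ∀ a ∈ A, ∀ b ∈ A, ∀ v ∈ M, π a (π b v) = π b (π a v)) :
    ∃ (lam : Q → ℂ) (v : V), v ∈ M ∧ v ≠ 0 ∧ ∀ a ∈ A, π a v = lam a • v := by
  obtain ⟨P, ⟨P0, PM, hP⟩, hmin⟩ := (wellFounded_lt (α := Submodule ℂ V)).has_min
    {P | P ≠ ⊥ ∧ P ≤ M ∧ ∀ a ∈ A, ∀ v ∈ P, π a v ∈ P} ⟨M, M0, le_rfl, hM⟩
  have key : ∀ a, ∃ z : ℂ, a ∈ A → ∀ v ∈ P, π a v = z • v := by
    intro a
    by_cases ha : a ∈ A
    swap
    · exact ⟨0, fun h => absurd h ha⟩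
    have : Nontrivial P := Submodule.nontrivial_iff_ne_bot.2 P0
    obtain ⟨z, hz⟩ := Module.End.exists_eigenvalue ((π a).toLinearMap.restrict (hP a ha))
    obtain ⟨w, hw⟩ := hz.exists_hasEigenvector
    have e : π a w = z • (w : V) := congrArg Subtype.val hw.apply_eq_smul
    let P' : Submodule ℂ V :=
      { carrier := {v | v ∈ P ∧ π a v = z • v}
        add_mem' := fun h1 h2 => ⟨P.add_mem h1.1 h2.1, by rw [map_add, h1.2, h2.2, smul_add]⟩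
        zero_mem' := ⟨P.zero_mem, by simp⟩
        smul_mem' := fun c _ h => ⟨P.smul_mem c h.1, by rw [map_smul, h.2, smul_comm]⟩ }
    have h1 : P' ≤ P := fun _ h => h.1
    have h2 : P' = P := h1.eq_of_not_lt (hmin P' ⟨?_, h1.trans PM, fun b hb v hv =>
      ⟨hP b hb v hv.1, by rw [hc a ha b hb v (PM hv.1), hv.2, map_smul]⟩⟩)
    · exact ⟨z, fun _ v hv => (h2.ge hv).2⟩
    · exact (Submodule.ne_bot_iff _).2 ⟨w, ⟨w.2, e⟩, fun h => hw.2 (Subtype.ext h)⟩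
  choose lam hl using key
  obtain ⟨v, hv, v0⟩ := (Submodule.ne_bot_iff _).1 P0
  exact ⟨lam, v, PM hv, v0, fun a ha => hl a ha v hv⟩

/-- Either the family is scalar, or the space splits. -/
theorem mono_split (iso : ∀ x u v, inner ℂ (π x u) (π x v) = inner ℂ u v) {H : Subgroup Q}
    {A : Set Q} {M : Submodule ℂ V} (M0 : M ≠ ⊥) (hM : ∀ h ∈ H, ∀ v ∈ M, π h v ∈ M)
    (hA : ∀ a ∈ A, a ∈ H) (hc : ∀ a ∈ A, ∀ b ∈ A, ∀ v ∈ M, π a (π b v) = π b (π a v))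
    (hj : ∀ h ∈ H, ∀ a ∈ A, ∃ z : ℂ, ∃ b ∈ A, ∀ v ∈ M, π (h⁻¹ * a * h) v = z • π b v) :
    (∀ a ∈ A, ∃ z : ℂ, ∀ v ∈ M, π a v = z • v) ∨ ∃ M' < M, M' ≠ ⊥ ∧ ∃ H' ≤ H,
      (∀ h ∈ H', ∀ v ∈ M', π h v ∈ M') ∧
      ∀ h ∈ H, h ∉ H' → ∀ v ∈ M', inner ℂ (π h v) v = 0 := by
  obtain ⟨lam, w, wM, w0, hw⟩ := mono_eig M0 (fun a ha => hM a (hA a ha)) hc
  let M' : Submodule ℂ V :=
    { carrier := {v | v ∈ M ∧ ∀ a ∈ A, π a v = lam a • v}
      add_mem' := fun h1 h2 => ⟨M.add_mem h1.1 h2.1, fun a ha => by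
        rw [map_add, h1.2 a ha, h2.2 a ha, smul_add]⟩
      zero_mem' := ⟨M.zero_mem, by simp⟩
      smul_mem' := fun c _ h => ⟨M.smul_mem c h.1, fun a ha => by
        rw [map_smul, h.2 a ha, smul_comm]⟩ }
  have h1 : M' ≤ M := fun _ h => h.1
  rcases h1.eq_or_lt with e | e
  · exact Or.inl fun a ha => ⟨lam a, fun v hv => (e.ge hv).2 a ha⟩
  let S : Submonoid Q :=
    { carrier := {h | h ∈ H ∧ ∀ v ∈ M', π h v ∈ M'}
      mul_mem' := fun h1 h2 => ⟨H.mul_mem h1.1 h2.1, fun v hv => by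
        rw [map_mul]
        exact h1.2 _ (h2.2 v hv)⟩
      one_mem' := ⟨H.one_mem, fun v hv => by
        rw [map_one]
        exact hv⟩ }
  let H' : Subgroup Q :=
    { S with
      inv_mem' := fun {x} hx => by
        have e1 : x⁻¹ = x ^ (orderOf x - 1) := by
          rw [inv_eq_iff_mul_eq_one, ← pow_succ', Nat.sub_add_cancel (orderOf_pos x),
            pow_orderOf_eq_one]
        rw [e1]
        exact S.pow_mem hx _ }
  refine Or.inr ⟨M', e, (Submodule.ne_bot_iff _).2 ⟨w, ⟨wM, hw⟩, w0⟩, H', fun _ h => h.1,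
    fun _ h => h.2, fun h hh hn v hv => ?_⟩
  by_contra h0
  refine hn ⟨hh, fun u hu => ⟨hM h hh u hu.1, fun a ha => ?_⟩⟩
  obtain ⟨z, b, hb, hz⟩ := hj h hh a ha
  have e1 : ∀ y ∈ M', π a (π h y) = (z * lam b) • π h y := fun y hy => by
    have e2 : a * h = h * (h⁻¹ * a * h) := by group
    have e3 : π (a * h) y = π (h * (h⁻¹ * a * h)) y := by rw [← e2]
    rw [map_mul π a h, map_mul π h] at e3
    refine e3.trans ?_
    show π h (π (h⁻¹ * a * h) y) = _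
    rw [hz y hy.1, hy.2 b hb, smul_smul, map_smul]
  have e2 := iso a (π h v) v
  have e3 := iso a w w
  rw [e1 v hv, hv.2 a ha, inner_smul_left, inner_smul_right, ← mul_assoc] at e2
  rw [hw a ha, inner_smul_left, inner_smul_right, ← mul_assoc] at e3
  have e4 := (mul_left_eq_self₀.1 e2).resolve_right h0
  have e5 := (mul_left_eq_self₀.1 e3).resolve_right (inner_self_ne_zero.2 w0)
  have e6 := mul_right_cancel₀ (right_ne_zero_of_mul_eq_one e5) (e4.trans e5.symm)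
  rw [e1 u hu, (starRingEnd ℂ).injective e6]

omit [Fintype Q] in
theorem cyc_gen {A B H : Subgroup Q} [B.Normal] {g : Q} (h : A ≤ B ⊔ Subgroup.zpowers g) :
    ∃ y ∈ H, ∀ a ∈ A, a ∈ H → ∃ m : ℤ, (y ^ m)⁻¹ * a ∈ B := by
  have h1 : (A ⊓ H).map (QuotientGroup.mk' B) ≤ Subgroup.zpowers (QuotientGroup.mk' B g) := by
    refine (Subgroup.map_mono (inf_le_left.trans h)).trans (le_of_eq ?_)
    rw [Subgroup.map_sup, QuotientGroup.map_mk'_self, bot_sup_eq, MonoidHom.map_zpowers]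
  obtain ⟨n, hn⟩ := (Subgroup.le_zpowers_iff _ _).1 h1
  obtain ⟨y, hy, e⟩ := hn.ge (Subgroup.mem_zpowers _)
  refine ⟨y, hy.2, fun a ha haH => ?_⟩
  obtain ⟨m, hm⟩ := hn.le ⟨a, ⟨ha, haH⟩, rfl⟩
  refine ⟨m, QuotientGroup.eq.1 ?_⟩
  rw [← e] at hm
  exact hm

theorem mono_top (iso : ∀ x u v, inner ℂ (π x u) (π x v) = inner ℂ u v) {k : ℕ}
    {N : ℕ → Subgroup Q} (h0 : N 0 = ⊤) (h2 : ∀ j, (N j).Normal)
    (h1 : ∀ j < k, ⁅N j, ⊤⁆ ≤ N (j + 1) ∨ ∃ g, N j ≤ N (j + 1) ⊔ Subgroup.zpowers g)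
    (h3 : ⁅N k, N k⁆ = ⊥) (M : Submodule ℂ V) (H : Subgroup Q) (M0 : M ≠ ⊥)
    (hM : ∀ h ∈ H, ∀ v ∈ M, π h v ∈ M) :
    ∃ e ∈ M, ‖e‖ = 1 ∧ ∀ h ∈ H, (∃ z : ℂ, π h e = z • e) ∨ inner ℂ (π h e) e = 0 := by
  induction M using WellFoundedLT.induction generalizing H with
  | ind M ih =>
  by_contra hcon
  have key : ∀ A : Set Q, (∀ a ∈ A, a ∈ H) →
      (∀ a ∈ A, ∀ b ∈ A, ∀ v ∈ M, π a (π b v) = π b (π a v)) →
      (∀ h ∈ H, ∀ a ∈ A, ∃ z : ℂ, ∃ b ∈ A, ∀ v ∈ M, π (h⁻¹ * a * h) v = z • π b v) →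
      ∀ a ∈ A, ∃ z : ℂ, ∀ v ∈ M, π a v = z • v := fun A a1 a2 a3 => by
    refine (mono_split iso M0 hM a1 a2 a3).resolve_right ?_
    rintro ⟨M', b1, b2, H', b3, b4, b5⟩
    obtain ⟨e, c1, c2, c3⟩ := ih M' b1 H' b2 b4
    refine hcon ⟨e, b1.le c1, c2, fun h hh => ?_⟩
    by_cases hh' : h ∈ H'
    · exact c3 h hh'
    · exact Or.inr (b5 h hh hh' e c1)
  have key' : ∀ j, (∀ a ∈ N j, a ∈ H → ∀ b ∈ N j, b ∈ H → ∀ v ∈ M, π a (π b v) = π b (π a v)) →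
      ∀ x ∈ N j, x ∈ H → ∃ z : ℂ, ∀ v ∈ M, π x v = z • v := fun j hj x hx hxH =>
    key {a | a ∈ N j ∧ a ∈ H} (fun _ h => h.2) (fun a ha b hb => hj a ha.1 ha.2 b hb.1 hb.2)
      (fun h hh a ha => ⟨1, h⁻¹ * a * h, ⟨(h2 j).conj_mem' a ha.1 h,
        H.mul_mem (H.mul_mem (H.inv_mem hh) ha.2) hh⟩, fun v _ => (one_smul _ _).symm⟩) x ⟨hx, hxH⟩
  have down : ∀ i j, j + i = k → ∀ x ∈ N j, x ∈ H → ∃ z : ℂ, ∀ v ∈ M, π x v = z • v := by
    intro i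
    induction i with
    | zero =>
      rintro j rfl
      refine key' _ fun a ha _ b hb _ v _ => ?_
      have e : π (a * b) v = π (b * a) v := by
        rw [commutatorElement_eq_one_iff_mul_comm.1
          (h3.le (Subgroup.commutator_mem_commutator ha hb))]
      rwa [map_mul, map_mul] at e
    | succ i ih' =>
      intro j hj
      have ih'' := ih' (j + 1) (by omega)
      rcases h1 j (by omega) with h4 | ⟨g, h4⟩
      · intro x hx hxH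
        refine key {x} (fun a ha => ha ▸ hxH) (fun a ha b hb v _ => by rw [ha, hb])
          (fun h hh a ha => ?_) x rfl
        rw [Subgroup.commutator_comm] at h4
        obtain ⟨z, hz⟩ := ih'' _
          (h4 (Subgroup.commutator_mem_commutator (Subgroup.mem_top h⁻¹) hx))
          (H.mul_mem (H.mul_mem (H.mul_mem (H.inv_mem hh) hxH) (H.inv_mem (H.inv_mem hh)))
            (H.inv_mem hxH))
        refine ⟨z, x, rfl, fun v hv => ?_⟩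
        have e : h⁻¹ * a * h = h⁻¹ * x * h⁻¹⁻¹ * x⁻¹ * x := by
          rw [ha, inv_inv, inv_mul_cancel_right]
        rw [e, map_mul]
        exact hz _ (hM x hxH v hv)
      · have := h2 (j + 1)
        obtain ⟨y, yH, hy⟩ := cyc_gen (H := H) h4
        have e : ∀ a ∈ N j, a ∈ H → ∃ (m : ℤ) (z : ℂ), ∀ v ∈ M, π a v = z • π (y ^ m) v := by
          intro a ha haH
          obtain ⟨m, hm⟩ := hy a ha haH
          obtain ⟨z, hz⟩ := ih'' _ hm (H.mul_mem (H.inv_mem (H.zpow_mem yH m)) haH)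
          refine ⟨m, z, fun v hv => ?_⟩
          rw [← map_smul, ← hz v hv, ← mul_apply_eq_comp, ← map_mul, mul_inv_cancel_left]
        refine key' _ fun a ha haH b hb hbH v hv => ?_
        obtain ⟨m, z, e1⟩ := e a ha haH
        obtain ⟨m', z', e2⟩ := e b hb hbH
        rw [e1 _ (hM b hbH v hv), e2 _ (hM a haH v hv), e1 v hv, e2 v hv, map_smul, map_smul,
          smul_comm, ← mul_apply_eq_comp, ← mul_apply_eq_comp, ← map_mul, ← map_mul, ← zpow_add,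
          ← zpow_add, add_comm]
  obtain ⟨v, hv, v0⟩ := (Submodule.ne_bot_iff _).1 M0
  have hm := M.smul_mem ((‖v‖⁻¹ : ℝ) : ℂ) hv
  refine hcon ⟨_, hm, ?_, fun h hh => Or.inl ?_⟩
  · rw [norm_smul, Complex.norm_real, norm_inv, norm_norm, inv_mul_cancel₀ (norm_ne_zero_iff.2 v0)]
  · obtain ⟨z, hz⟩ := down k 0 (zero_add k) h (h0.ge (Subgroup.mem_top h)) hh
    exact ⟨z, hz _ hm⟩

theorem mono (iso : ∀ x u v, inner ℂ (π x u) (π x v) = inner ℂ u v) {U : Subgroup Q} (hU : Cl U)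
    (M : Submodule ℂ V) (M0 : M ≠ ⊥) (hM : ∀ h ∈ U, ∀ v ∈ M, π h v ∈ M) :
    ∃ e ∈ M, ‖e‖ = 1 ∧ ∀ h ∈ U, (∃ z : ℂ, π h e = z • e) ∨ inner ℂ (π h e) e = 0 := by
  obtain ⟨k, N, h0, h2, h1, h3⟩ := hU
  let _ : Fintype U := Fintype.ofFinite _
  obtain ⟨e, e1, e2, e3⟩ := mono_top (π := π.comp U.subtype) (fun x => iso x) h0 h2 h1 h3 M ⊤ M0
    fun h _ => hM h h.2
  exact ⟨e, e1, e2, fun h hh => e3 ⟨h, hh⟩ (Subgroup.mem_top _)⟩

end Pool.Agent.Lib.MP_cd2b7c_an.NA
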