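import Pool.Agent.Lib.MP_cd2b7c_an.NA.Base
import Pool.Agent.Lib.MP_cd2b7c_an.NA.Mono

/-! Polynomial decay of any order for several independent copies. -/

open Finset
open scoped BigOperators

namespace Pool.Agent.Lib.MP_cd2b7c_an.NA

/-- The time constant. -/
def tm (d I k : ℕ) : ℕ := 2 ^ k * (8 * (k * (d + 1)) * (k * (8 * (d + 1) * I ^ 2)) ^ 2)

theorem expect_cons {Λ : Type*} [Fintype Λ] {t : ℕ} (F : (Fin (t + 1) → Λ) → ℝ) :
    𝔼 w, F w = 𝔼 w : Fin t → Λ, 𝔼 l, F (Fin.cons l w) := by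
  rw [expect_comm, ← expect_product', univ_product_univ]
  exact (Fintype.expect_equiv (Fin.consEquiv fun _ => Λ) _ _ fun _ => rfl).symm

variable {Q : Type*} [Group Q] [Fintype Q] {V : Type*} [NormedAddCommGroup V]
  [InnerProductSpace ℂ V] [FiniteDimensional ℂ V] {π : Q →* (V →L[ℂ] V)}

theorem hs {ι : Type*} [Fintype ι] {e : ι → V} (ho : Orthonormal ℂ e) {S T : V →L[ℂ] V}
    (adj : ∀ u v, inner ℂ (S u) v = inner ℂ u (T v))
    (hP : ∀ i, ‖T (e i)‖ ^ 2 = ∑ j, ‖inner ℂ (e j) (T (e i))‖ ^ 2) :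
    ∑ i, ‖T (e i)‖ ^ 2 ≤ ∑ j, ‖S (e j)‖ ^ 2 := by
  simp only [hP, ← adj]
  rw [sum_comm]
  refine sum_le_sum fun j _ => ?_
  simpa only [norm_inner_symm (S (e j))] using ho.sum_inner_products_le (S (e j)) (s := univ)

theorem top (nr : ∀ x v, ‖π x v‖ = ‖v‖) {Ω : Type*} [Fintype Ω] (A : Ω → V →L[ℂ] V)
    (hA : ∀ x v, 𝔼 ω, ‖A ω (π x v)‖ ^ 2 = 𝔼 ω, ‖A ω v‖ ^ 2) {M0 : Submodule ℂ V}
    (h0 : ∀ x, ∀ v ∈ M0, π x v ∈ M0) {B : ℝ}
    (h : ∀ M ≤ M0, M ≠ ⊥ → (∀ x, ∀ v ∈ M, π x v ∈ M) → ∀ l : ℝ,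
      (∀ v ∈ M, 𝔼 ω, ‖A ω v‖ ^ 2 = l * ‖v‖ ^ 2) → l ≤ B) {v : V} (hv : v ∈ M0) :
    𝔼 ω, ‖A ω v‖ ^ 2 ≤ B * ‖v‖ ^ 2 := by
  set Φ : V → ℝ := fun v => 𝔼 ω, ‖A ω v‖ ^ 2
  have Φs : ∀ (z : ℂ) v, Φ (z • v) = ‖z‖ ^ 2 * Φ v := fun z v => by
    simp only [Φ, map_smul, norm_smul, mul_pow, mul_expect]
  have Φp : ∀ u v, Φ (u + v) + Φ (u - v) = 2 * (Φ u + Φ v) := fun u v => by
    simp only [Φ, ← expect_add_distrib, mul_expect, map_add, map_sub]
    exact expect_congr rfl fun ω _ => parallelogram_law_with_norm ℂ _ _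
  have Φc : Continuous Φ := by
    simp only [Φ, Fintype.expect_eq_sum_div_card]
    fun_prop
  have un : ∀ v : V, v ≠ 0 → ‖((‖v‖ : ℂ))⁻¹ • v‖ = 1 := fun v v0 => by
    rw [norm_smul, norm_inv, Complex.norm_real, norm_norm, inv_mul_cancel₀ (norm_ne_zero_iff.2 v0)]
  by_cases v0 : v = 0
  · simp [v0]
  obtain ⟨u, ⟨u1, uM⟩, hu⟩ := ((isCompact_sphere (0 : V) 1).inter_right
    M0.closed_of_finiteDimensional).exists_isMaxOn
    ⟨_, mem_sphere_zero_iff_norm.2 (un v v0), M0.smul_mem _ hv⟩ Φc.continuousOn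
  rw [mem_sphere_zero_iff_norm] at u1
  have le : ∀ w ∈ M0, Φ w ≤ Φ u * ‖w‖ ^ 2 := fun w hw => by
    by_cases w0 : w = 0
    · simp [w0, Φ]
    have h1 : Φ _ ≤ Φ u := hu ⟨mem_sphere_zero_iff_norm.2 (un w w0), M0.smul_mem _ hw⟩
    rw [Φs, norm_inv, Complex.norm_real, norm_norm, inv_pow,
      inv_mul_le_iff₀ (pow_pos (norm_pos_iff.2 w0) 2)] at h1
    linarith
  let M : Submodule ℂ V :=
    { carrier := {w | w ∈ M0 ∧ Φ w = Φ u * ‖w‖ ^ 2}
      zero_mem' := ⟨M0.zero_mem, by simp [Φ]⟩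
      add_mem' := by
        rintro a b ⟨a1, a2⟩ ⟨b1, b2⟩
        refine ⟨M0.add_mem a1 b1, ?_⟩
        have h1 := le _ (M0.add_mem a1 b1)
        have h2 := le _ (M0.sub_mem a1 b1)
        have h3 := Φp a b
        have h4 := congrArg (Φ u * ·) (parallelogram_law_with_norm ℂ a b)
        simp only [mul_add] at h4 h3
        linarith
      smul_mem' := by
        rintro z a ⟨a1, a2⟩
        refine ⟨M0.smul_mem z a1, ?_⟩
        rw [Φs, a2, norm_smul]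
        ring }
  have hB := h M (fun w hw => hw.1) (fun hM => by
      have : u ∈ M := ⟨uM, by rw [u1]; ring⟩
      rw [hM, Submodule.mem_bot] at this
      simp [this] at u1)
    (fun x w hw => ⟨h0 x w hw.1, by rw [nr]; exact (hA x w).trans hw.2⟩) (Φ u) fun w hw => hw.2
  exact (le v hv).trans (mul_le_mul_of_nonneg_right hB (sq_nonneg _))

/-- Vectors with zero average. -/
def zr (π : Q →* (V →L[ℂ] V)) : Submodule ℂ V := LinearMap.ker (∑ x, π x).toLinearMap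

omit [FiniteDimensional ℂ V] in
theorem mem_zr {v : V} : v ∈ zr π ↔ ∑ x, π x v = 0 := by
  simp [zr]

omit [FiniteDimensional ℂ V] in
theorem zr_inv (x : Q) (v : V) (hv : v ∈ zr π) : π x v ∈ zr π := by
  rw [mem_zr] at hv ⊢
  rw [← hv, ← Equiv.sum_comp (Equiv.mulRight x) fun y => π y v]
  simp

omit [FiniteDimensional ℂ V] [Fintype Q] in
theorem norm_walk_conj (nr : ∀ x v, ‖π x v‖ = ‖v‖) {ι : Type*} [Fintype ι] (s : ι → Q) (x : Q)
    (t : ℕ) (v : V) :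
    ‖(av π (lt fun i => x * s i * x⁻¹) ^ t) (π x v)‖ = ‖(av π (lt s) ^ t) v‖ := by
  rw [← mul_apply_eq_comp, walk_conj, mul_apply_eq_comp, nr]

variable (iso : ∀ x u v, inner ℂ (π x u) (π x v) = inner ℂ u v) {U : Subgroup Q} (hU : Cl U) {I : ℕ}
  (hI : U.index ≤ I) {κ : Type*} [Fintype κ] {c : κ → Q} (hc : Subgroup.closure (Set.range c) = ⊤)
include iso hU hI hc

theorem one_copy {R r : ℕ} (R0 : 0 < R) (hr : 8 * (Fintype.card κ + 1) * I ^ 2 * R ^ 5 ≤ r) {v : V}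
    (hv : v ∈ zr π) : 𝔼 z : Q × Q, ‖(av π (lt (gn c z)) ^ r) v‖ ^ 2 ≤ 8 / R * ‖v‖ ^ 2 := by
  have nr := nr_of_iso iso
  refine top nr (fun z => av π (lt (gn c z)) ^ r) (fun x v => ?_) zr_inv (fun M M1 M0 hM l hl => ?_) hv
  · refine (Fintype.expect_equiv ((MulAut.conj x).toEquiv.prodCongr (Equiv.mulLeft x)) _ _
      fun z => ?_).symm
    rw [← norm_walk_conj nr _ x, ← gn_conj]
    rfl
  · obtain ⟨e, eM, e1, he⟩ := mono iso hU M M0 fun h _ => hM h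
    have h1 := hl e eM
    rw [e1, one_pow, mul_one, ← univ_product_univ, expect_product, expect_comm] at h1
    rw [← h1]
    refine expect_le univ_nonempty fun g _ => ?_
    refine base_e iso e1 (mem_zr.1 (M1 eM)) hI he (c := fun i => g * c i * g⁻¹) ?_ R0 hr
    have h2 := congrArg (Subgroup.map (MulAut.conj g).toMonoidHom) hc
    rw [MonoidHom.map_closure, ← Set.range_comp,
      Subgroup.map_top_of_surjective _ (MulAut.conj g).surjective] at h2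
    exact h2

theorem prod_copy {R r : ℕ} (R0 : 0 < R) (hr : 8 * (Fintype.card κ + 1) * I ^ 2 * R ^ 5 ≤ r)
    (k : ℕ) : ∃ Z Y : (Fin k → Q × Q) → V →L[ℂ] V,
      (∀ ω u v, inner ℂ (Z ω u) v = inner ℂ u (Y ω v)) ∧
      (∀ M : Submodule ℂ V, (∀ x, ∀ v ∈ M, π x v ∈ M) → ∀ ω, ∀ v ∈ M, Z ω v ∈ M ∧ Y ω v ∈ M) ∧
      (∀ v ∈ zr π, 𝔼 ω, ‖Z ω v‖ ^ 2 ≤ (8 / R) ^ k * ‖v‖ ^ 2) ∧ (∀ ω v, ‖Y ω v‖ ≤ ‖v‖) ∧
      ∀ ω v (b : ℝ), 0 ≤ b → (∀ j, ‖π (gk c ω j) v - v‖ ≤ b) → ‖Y ω v - v‖ ≤ k * r * b := by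
  have nr := nr_of_iso iso
  induction k with
  | zero => exact ⟨fun _ => 1, fun _ => 1, by simp, by simp, by simp, by simp, by simp⟩
  | succ k ih =>
    obtain ⟨Z, Y, h1, h2, h3, h4, h5⟩ := ih
    refine ⟨fun ω => av π (lt (gn c (ω 0))) ^ r * Z (Fin.tail ω),
      fun ω => Y (Fin.tail ω) * av π (lt (gn c (ω 0))) ^ r, fun ω u v => ?_,
      fun M hM ω v hv => ⟨?_, ?_⟩, fun v hv => ?_, fun ω v => ?_, fun ω v b b0 hb => ?_⟩
    · rw [mul_apply_eq_comp, mul_apply_eq_comp, walk_pow_symm iso, h1]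
    · exact av_pow_mem hM _ _ (h2 M hM _ _ hv).1
    · exact (h2 M hM _ _ (av_pow_mem hM _ _ hv)).2
    · rw [expect_cons]
      simp only [Fin.cons_zero, Fin.tail_cons, mul_apply_eq_comp]
      calc _ ≤ 𝔼 ω, 8 / R * ‖Z ω v‖ ^ 2 := expect_le_expect fun ω _ =>
            one_copy iso hU hI hc R0 hr (h2 _ zr_inv ω v hv).1
        _ ≤ 8 / R * ((8 / R) ^ k * ‖v‖ ^ 2) := by
            rw [← mul_expect]
            exact mul_le_mul_of_nonneg_left (h3 v hv) (by positivity)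
        _ = _ := by ring
    · exact (h4 _ _).trans (norm_av_pow_le nr (lt (gn c (ω 0))) v (Nat.zero_le r))
    · have a1 := h5 (Fin.tail ω) v b b0 fun j => hb (j.1.succ, j.2)
      have a2 := mv_pow (norm_av_le nr (lt (gn c (ω 0))))
        (norm_av_sub_le _ (mv_lt nr _ b0 fun o => hb (0, o))) r
      have a3 := mv_comp (h4 _) a1 a2
      rw [mul_apply_eq_comp, Nat.cast_succ]
      linarith

theorem fin_decay {k R t : ℕ} (k0 : 0 < k) (R0 : 0 < R)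
    (ht : tm (Fintype.card κ) I k * R ^ 11 ≤ t) {v : V} (hv : ∑ x, π x v = 0) :
    𝔼 ω : Fin k → Q × Q, ‖(av π (lt (gk c ω)) ^ t) v‖ ^ 2 ≤ 5 * (8 / R) ^ k * ‖v‖ ^ 2 := by
  have nr := nr_of_iso iso
  have : Nonempty (Fin k) := ⟨⟨0, k0⟩⟩
  refine top nr (fun ω => av π (lt (gk c ω)) ^ t) (fun x v => ?_) zr_inv
    (fun M M1 M0 hM l hl => ?_) (mem_zr.2 hv)
  · refine (Fintype.expect_equiv (Equiv.piCongrRight fun _ =>
      (MulAut.conj x).toEquiv.prodCongr (Equiv.mulLeft x)) _ _ fun ω => ?_).symm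
    rw [← norm_walk_conj nr _ x]
    have : (fun i => x * gk c ω i * x⁻¹) = gk c (Equiv.piCongrRight (fun _ =>
        (MulAut.conj x).toEquiv.prodCongr (Equiv.mulLeft x)) ω) :=
      funext fun j => (congrFun (gn_conj c (ω j.1) x) j.2).symm
    rw [this]
  set r := 8 * (Fintype.card κ + 1) * I ^ 2 * R ^ 5 with hr
  set n := k * (Fintype.card κ + 1) with hn
  obtain ⟨Z, Y, h1, h2, h3, -, h5⟩ := prod_copy iso hU hI hc R0 hr.ge k
  let b := stdOrthonormalBasis ℂ M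
  let e := fun i => (b i : V)
  have eM : ∀ i, e i ∈ M := fun i => (b i).2
  have ho : Orthonormal ℂ e := b.orthonormal.comp_linearIsometry M.subtypeₗᵢ
  have hP : ∀ u ∈ M, ‖u‖ ^ 2 = ∑ j, ‖inner ℂ (e j) u‖ ^ 2 := fun u hu =>
    (b.sum_sq_norm_inner_right ⟨u, hu⟩).symm
  set D : ℝ := (Module.finrank ℂ M : ℝ)
  have D0 : 0 < D := by
    have := Submodule.nontrivial_iff_ne_bot.2 M0
    exact Nat.cast_pos.2 Module.finrank_pos
  set β : ℝ := (8 / R) ^ k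
  have β0 : 0 ≤ β := by positivity
  have R1 : (1 : ℝ) ≤ R := by exact_mod_cast R0
  let A : ℕ → ℝ := fun m => 𝔼 ω : Fin k → Q × Q, ∑ i, ‖(av π (lt (gk c ω)) ^ m) (e i)‖ ^ 2
  have A0 : ∀ m, 0 ≤ A m := fun m => expect_nonneg fun _ _ => by positivity
  have mono : ∀ m m', m ≤ m' → A m' ≤ A m := fun m m' h => expect_le_expect fun ω _ =>
    sum_le_sum fun i _ => pow_le_pow_left₀ (norm_nonneg _) (norm_av_pow_le nr _ _ h) 2
  have AD : A 0 = D := by simp [A, ho.1, D]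
  have At : A t = l * D := by
    simp only [A, expect_sum_comm, fun i => hl _ (eM i), ho.1]
    simp [D, mul_comm]
  have stp : ∀ m, 8 * n * (k * r) ^ 2 * R ≤ m → A (2 * m) ≤ 2 * β * D + A m / (2 * R) := fun m hm => by
    have hm' : (8 * n * (k * r) ^ 2 * R : ℝ) ≤ m := by exact_mod_cast hm
    have s1 : ∀ ω : Fin k → Q × Q, ∑ i, ‖(av π (lt (gk c ω)) ^ (2 * m)) (e i)‖ ^ 2 ≤
        2 * ∑ i, ‖Z ω (e i)‖ ^ 2 + (∑ i, ‖(av π (lt (gk c ω)) ^ m) (e i)‖ ^ 2) / (2 * R) := fun ω => by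
      set W := av π (lt (gk c ω))
      have s2 : ∑ i, ‖Y ω ((W ^ (2 * m)) (e i))‖ ^ 2 ≤ ∑ i, ‖Z ω (e i)‖ ^ 2 := by
        refine (hs ho (S := W ^ (2 * m) * Z ω) (T := Y ω * W ^ (2 * m)) (fun u v => ?_)
          fun i => hP _ (h2 M hM ω _ (av_pow_mem hM _ _ (eM i))).2).trans (sum_le_sum fun i _ => ?_)
        · rw [mul_apply_eq_comp, mul_apply_eq_comp, walk_pow_symm iso, h1]
        · exact pow_le_pow_left₀ (norm_nonneg _)
            (norm_av_pow_le nr (lt (gk c ω)) (Z ω (e i)) (Nat.zero_le (2 * m))) 2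
      have s3 : ∀ i, ‖(W ^ (2 * m)) (e i)‖ ^ 2 ≤
          2 * ‖Y ω ((W ^ (2 * m)) (e i))‖ ^ 2 + ‖(W ^ m) (e i)‖ ^ 2 / (2 * R) := fun i => by
        rw [two_mul m, pow_add, mul_apply_eq_comp]
        set u := (W ^ m) (e i)
        have m0 : (0 : ℝ) < 2 * m + 1 := by positivity
        have a1 := h5 ω ((W ^ m) u) √(4 * n * ‖u‖ ^ 2 / (2 * m + 1)) (Real.sqrt_nonneg _) fun j => by
          refine Real.le_sqrt_of_sq_le ?_
          rw [le_div_iff₀' m0]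
          simpa [hn] using energy_le iso (gk c ω) m u j
        have a2 := pow_le_pow_left₀ (norm_nonneg _) a1 2
        rw [mul_pow, Real.sq_sqrt (by positivity)] at a2
        have a3 : (k * r : ℝ) ^ 2 * (4 * n * ‖u‖ ^ 2 / (2 * m + 1)) ≤ ‖u‖ ^ 2 / (4 * R) := by
          rw [← mul_div_assoc, div_le_div_iff₀ m0 (by positivity)]
          nlinarith [mul_le_mul_of_nonneg_left hm' (sq_nonneg ‖u‖), sq_nonneg ‖u‖]
        have a4 := norm_sub_le (Y ω ((W ^ m) u)) (Y ω ((W ^ m) u) - (W ^ m) u)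
        rw [sub_sub_cancel] at a4
        have a5 : ‖u‖ ^ 2 / (2 * R) = 2 * (‖u‖ ^ 2 / (4 * R)) := by ring
        nlinarith [pow_le_pow_left₀ (norm_nonneg _) a4 2,
          sq_nonneg (‖Y ω ((W ^ m) u)‖ - ‖Y ω ((W ^ m) u) - (W ^ m) u‖)]
      refine (sum_le_sum fun i _ => s3 i).trans ?_
      rw [sum_add_distrib, ← mul_sum, ← sum_div]
      linarith
    refine (expect_le_expect fun ω _ => s1 ω).trans ?_
    rw [expect_add_distrib, ← mul_expect, ← expect_div, expect_sum_comm]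
    have s4 := sum_le_sum fun i (_ : i ∈ univ) => h3 _ (M1 (eM i))
    simp only [ho.1, one_pow, mul_one, sum_const, card_univ, Fintype.card_fin, nsmul_eq_mul] at s4
    linarith
  have it : ∀ j, A (2 ^ j * (8 * n * (k * r) ^ 2 * R)) ≤ 4 * β * D + D / (2 * R) ^ j := fun j => by
    induction j with
    | zero => rw [pow_zero (2 * R : ℝ), div_one]; linarith [mono _ _ (Nat.zero_le (2 ^ 0 * (8 * n * (k * r) ^ 2 * R))), mul_nonneg β0 D0.le]
    | succ j ih =>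
      rw [pow_succ' 2, mul_assoc 2]
      refine (stp _ (Nat.le_mul_of_pos_left _ (by positivity))).trans ?_
      have a1 := div_le_div_of_nonneg_right ih (by positivity : (0 : ℝ) ≤ 2 * R)
      have a2 : 4 * β * D / (2 * R) ≤ 2 * β * D := by
        rw [div_le_iff₀ (by positivity)]
        nlinarith [mul_nonneg β0 D0.le]
      rw [add_div, div_div, ← pow_succ] at a1
      linarith
  have a1 := (mono _ t (le_trans (le_of_eq (by simp only [tm, hr, hn]; ring)) ht)).trans (it k)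
  have a2 : D / (2 * R) ^ k ≤ β * D := by
    rw [div_eq_inv_mul, ← inv_pow]
    refine mul_le_mul_of_nonneg_right (pow_le_pow_left₀ (by positivity) ?_ k) D0.le
    rw [inv_eq_one_div, div_le_div_iff₀ (by positivity) (by positivity)]
    linarith
  rw [At] at a1
  exact le_of_mul_le_mul_right (by linarith) D0

end Pool.Agent.Lib.MP_cd2b7c_an.NA
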