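import Mathlib

/-! A topologically finitely generated profinite group is second countable. -/

namespace Pool.Agent.Lib.MP_cd2b7c_an.NA

open Topology TopologicalSpace

theorem open_eq_closure {G : Type*} [Group G] [TopologicalSpace G] [IsTopologicalGroup G]
    [CompactSpace G] (S : Finset G) (hS : Dense (Subgroup.closure (S : Set G) : Set G))
    (N : Subgroup G) (hN : IsOpen (N : Set G)) :
    ∃ T : Finset (Subgroup.closure (S : Set G)),
      (N : Set G) = closure (Subgroup.closure ((fun x : Subgroup.closure (S : Set G) => (x : G)) ''
        (T : Set (Subgroup.closure (S : Set G)))) : Set G) := by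
  classical
  set Γ := Subgroup.closure (S : Set G) with hΓ
  have : Finite (G ⧸ N) := Subgroup.quotient_finite_of_isOpen N hN
  have : N.FiniteIndex := Subgroup.finiteIndex_of_finite_quotient
  have : Group.FG Γ := (Group.fg_iff_subgroup_fg Γ).2 ⟨S, rfl⟩
  have : (N.subgroupOf Γ).FiniteIndex := inferInstance
  have hfg : (N.subgroupOf Γ).FG := (Group.fg_iff_subgroup_fg _).1 inferInstance
  obtain ⟨T, hT⟩ := hfg
  refine ⟨T, ?_⟩
  have h1 : Subgroup.closure ((fun x : Γ => (x : G)) '' (T : Set Γ)) = N ⊓ Γ := by
    have := MonoidHom.map_closure Γ.subtype (T : Set Γ)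
    rw [hT, Subgroup.subgroupOf_map_subtype] at this
    exact this.symm
  rw [h1]
  apply Set.Subset.antisymm
  · exact hS.open_subset_closure_inter hN
  · exact closure_minimal (fun x hx => hx.1) (N.isClosed_of_isOpen hN)

theorem countable_closure {G : Type*} [Group G] (S : Finset G) :
    Countable (Subgroup.closure (S : Set G)) := by
  classical
  have h : Subgroup.closure (S : Set G) =
      (FreeGroup.lift (fun x : S => (x : G))).range := by
    rw [FreeGroup.range_lift_eq_closure]
    congr 1
    ext x
    simp
  rw [h]
  exact (MonoidHom.rangeRestrict_surjective _).countable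

theorem second_countable {G : Type*} [Group G] [TopologicalSpace G] [IsTopologicalGroup G]
    [CompactSpace G] [TotallyDisconnectedSpace G] (S : Finset G)
    (hS : Dense (Subgroup.closure (S : Set G) : Set G)) : SecondCountableTopology G := by
  classical
  have := countable_closure S
  let B : Subgroup.closure (S : Set G) × Finset (Subgroup.closure (S : Set G)) → Set G :=
    fun p => interior {y | (p.1 : G)⁻¹ * y ∈
      closure (Subgroup.closure ((fun x : Subgroup.closure (S : Set G) => (x : G)) ''
        (p.2 : Set (Subgroup.closure (S : Set G)))) : Set G)}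
  have hB : IsTopologicalBasis (Set.range B) := by
    refine isTopologicalBasis_of_isOpen_of_nhds ?_ ?_
    · rintro _ ⟨p, rfl⟩
      exact isOpen_interior
    · intro a u ha hu
      have hu' : IsOpen {y : G | a * y ∈ u} := hu.preimage (continuous_const.mul continuous_id)
      obtain ⟨N, hN⟩ := ProfiniteGrp.exist_openNormalSubgroup_sub_open_nhds_of_one hu'
        (by simpa using ha)
      have hNo : IsOpen ((N : Subgroup G) : Set G) := N.isOpen
      obtain ⟨T, hT⟩ := open_eq_closure S hS (N : Subgroup G) hNo
      have ho : IsOpen {g : G | g⁻¹ * a ∈ ((N : Subgroup G) : Set G)} :=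
        hNo.preimage (continuous_inv.mul continuous_const)
      obtain ⟨g, hgΓ, hg⟩ := hS.exists_mem_open ho ⟨a, by simp⟩
      have ho2 : IsOpen {y : G | g⁻¹ * y ∈ ((N : Subgroup G) : Set G)} :=
        hNo.preimage (continuous_const.mul continuous_id)
      have hBe : B (⟨g, hgΓ⟩, T) = {y : G | g⁻¹ * y ∈ ((N : Subgroup G) : Set G)} := by
        simp only [B, ← hT]
        exact ho2.interior_eq
      refine ⟨_, ⟨(⟨g, hgΓ⟩, T), rfl⟩, ?_, ?_⟩
      · rw [hBe]
        exact hg
      · rw [hBe]
        intro y hy
        have h3 : a⁻¹ * y ∈ (N : Subgroup G) := by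
          have := (N : Subgroup G).mul_mem ((N : Subgroup G).inv_mem hg) hy
          simpa [mul_assoc] using this
        have h4 := hN h3
        simpa using h4
  exact hB.secondCountableTopology (Set.countable_range B)

end Pool.Agent.Lib.MP_cd2b7c_an.NA
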