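import Mathlib

/-! A discontinuous invariant functional when no finitely generated subgroup is dense. -/

open Finset MeasureTheory
open scoped ENNReal

namespace Pool.Agent.Lib.MP_cd2b7c_an.NA

section
variable {G : Type*} [Group G] [TopologicalSpace G] [IsTopologicalGroup G] [CompactSpace G]

/-- a finite set lies in a proper open subgroup -/
theorem conv_proper [TotallyDisconnectedSpace G] {S : Set G}
    (h : ¬ Dense (Subgroup.closure S : Set G)) :
    ∃ V : Subgroup G, IsOpen (V : Set G) ∧ V ≠ ⊤ ∧ S ⊆ V := by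
  obtain ⟨x, hx⟩ := not_forall.1 h
  obtain ⟨N, hN⟩ := ProfiniteGrp.exist_openNormalSubgroup_sub_open_nhds_of_one
    (U := (fun y => x * y⁻¹) ⁻¹' (closure (Subgroup.closure S : Set G))ᶜ)
    (isClosed_closure.isOpen_compl.preimage (by fun_prop)) (by simpa using hx)
  refine ⟨Subgroup.closure S ⊔ N.toSubgroup, Subgroup.isOpen_mono le_sup_right N.isOpen,
    fun e => ?_, fun y hy => Subgroup.mem_sup_left (Subgroup.subset_closure hy)⟩
  obtain ⟨a, ha, n, hn, rfl⟩ := Subgroup.mem_sup_of_normal_right.1 (e ▸ Subgroup.mem_top x)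
  exact hN hn (subset_closure (by simpa using ha))

/-- one open subgroup serves all sets of `r` elements -/
theorem conv_unif [TotallyDisconnectedSpace G]
    (h : ∀ S : Finset G, ¬ Dense (Subgroup.closure (S : Set G) : Set G)) (r : ℕ) :
    ∃ N : Subgroup G, IsOpen (N : Set G) ∧ ∀ s : Fin r → G,
      ∃ V : Subgroup G, V ≠ ⊤ ∧ N ≤ V ∧ ∀ i, s i ∈ V := by
  classical
  choose V h1 h2 h3 using fun s : Fin r → G => conv_proper (h (univ.image s))
  obtain ⟨t, ht⟩ := isCompact_univ.elim_finite_subcover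
    (fun s : Fin r → G => Set.pi Set.univ fun _ : Fin r => (V s : Set G))
    (fun s => isOpen_set_pi Set.finite_univ fun _ _ => h1 s)
    fun s _ => Set.mem_iUnion.2 ⟨s, fun i _ => h3 s (by simp)⟩
  refine ⟨⨅ s ∈ t, V s, by simpa using isOpen_biInter_finset fun s _ => h1 s, fun s => ?_⟩
  obtain ⟨u, hu, hs⟩ := Set.mem_iUnion₂.1 (ht (Set.mem_univ s))
  exact ⟨V u, h2 u, biInf_le V hu, fun i => hs i trivial⟩

variable [MeasurableSpace G] [BorelSpace G] (μ : Measure G) [IsProbabilityMeasure μ]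

theorem conv_index [μ.IsMulLeftInvariant] {V : Subgroup G} (hV : IsOpen (V : Set G)) :
    0 < V.index ∧ μ.real V = (V.index : ℝ)⁻¹ := by
  have := V.quotient_finite_of_isOpen hV
  have : V.FiniteIndex := Subgroup.finiteIndex_of_finite_quotient
  have h := congrArg ENNReal.toReal (V.index_mul_measure hV.measurableSet μ)
  rw [ENNReal.toReal_mul, measure_univ, ENNReal.toReal_natCast, ENNReal.toReal_one] at h
  exact ⟨Nat.pos_of_ne_zero Subgroup.FiniteIndex.index_ne_zero, eq_inv_of_mul_eq_one_right h⟩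

variable (q : ℝ≥0∞) [Fact (1 ≤ q)]

/-- Integration over a set. -/
noncomputable def sInt (s : Set G) : Lp ℂ q μ →L[ℂ] ℂ :=
  LinearMap.mkContinuous
    { toFun := fun f => ∫ x in s, f x ∂μ
      map_add' := fun f g => by
        rw [← integral_add ((Lp.memLp f).integrable Fact.out).integrableOn
          ((Lp.memLp g).integrable Fact.out).integrableOn]
        exact integral_congr_ae (ae_restrict_of_ae (Lp.coeFn_add f g))
      map_smul' := fun c f => by
        rw [RingHom.id_apply, ← integral_smul]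
        exact integral_congr_ae (ae_restrict_of_ae (Lp.coeFn_smul c f)) } 1 fun f => by
    rw [one_mul, Lp.norm_def]
    refine (norm_integral_le_lintegral_norm _).trans (ENNReal.toReal_mono (Lp.eLpNorm_ne_top f) ?_)
    simp only [ofReal_norm]
    exact (setLIntegral_le_lintegral _ _).trans (eLpNorm_one_eq_lintegral_enorm.ge.trans
      (eLpNorm_le_eLpNorm_of_exponent_le Fact.out (Lp.aestronglyMeasurable f)))

omit [Group G] [TopologicalSpace G] [IsTopologicalGroup G] [CompactSpace G] [BorelSpace G] in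
theorem sInt_apply (s : Set G) (f : Lp ℂ q μ) : sInt μ q s f = ∫ x in s, f x ∂μ := rfl

/-- The indicator function of a measurable set. -/
noncomputable def ind {s : Set G} (hs : MeasurableSet s) : Lp ℂ q μ :=
  indicatorConstLp q hs (measure_ne_top μ s) 1

omit [CompactSpace G] in
theorem sInt_tr [μ.IsMulLeftInvariant] {V : Subgroup G} (hV : IsOpen (V : Set G)) {a : G}
    (ha : a ∈ V) {f g : Lp ℂ q μ} (e : (g : G → ℂ) =ᵐ[μ] fun x => f (a * x)) :
    sInt μ q V g = sInt μ q V f := by
  rw [sInt_apply, sInt_apply, integral_congr_ae (ae_restrict_of_ae e),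
    ← integral_indicator hV.measurableSet, ← integral_indicator hV.measurableSet,
    ← integral_mul_left_eq_self (fun x => (V : Set G).indicator f x) a]
  refine integral_congr_ae (ae_of_all _ fun x => ?_)
  by_cases hx : x ∈ V
  · simp [hx, V.mul_mem ha hx]
  · simp [hx, V.mul_mem_cancel_left ha]

omit [Fact (1 ≤ q)] in
theorem conv_zero [μ.IsMulLeftInvariant] (φ : Lp ℂ q μ →ₗ[ℂ] ℂ)
    (hφ : ∀ (a : G) (f g : Lp ℂ q μ), (g : G → ℂ) =ᵐ[μ] (fun x => f (a * x)) → φ g = φ f)
    (h1 : φ (ind μ q MeasurableSet.univ) = 0) {N : Subgroup G} (hN : IsOpen (N : Set G)) :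
    φ (ind μ q hN.measurableSet) = 0 := by
  classical
  have := N.quotient_finite_of_isOpen hN
  have := Fintype.ofFinite (G ⧸ N)
  have m : ∀ c : G ⧸ N, MeasurableSet ((fun x => c.out⁻¹ * x) ⁻¹' (N : Set G)) := fun c =>
    (hN.preimage (by fun_prop)).measurableSet
  have e : ∑ c, ind μ q (m c) = ind μ q MeasurableSet.univ := by
    refine Lp.ext ((Lp.coeFn_finsetSum _ _).trans ?_)
    filter_upwards [ae_all_iff.2 fun c => indicatorConstLp_coeFn (p := q) (hs := m c)
      (hμs := measure_ne_top μ _) (c := (1 : ℂ)), indicatorConstLp_coeFn (p := q)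
      (hs := MeasurableSet.univ) (hμs := measure_ne_top μ _) (c := (1 : ℂ))] with x h2 h3
    simp only [ind, Finset.sum_apply, h2, h3, Set.indicator_apply, Set.mem_preimage,
      SetLike.mem_coe, ← QuotientGroup.eq, QuotientGroup.out_eq']
    simp
  have e2 : ∀ c, φ (ind μ q (m c)) = φ (ind μ q hN.measurableSet) := fun c =>
    hφ c.out⁻¹ _ _ (indicatorConstLp_coeFn.trans
      ((measurePreserving_mul_left μ c.out⁻¹).quasiMeasurePreserving.ae_eq_comp
        indicatorConstLp_coeFn).symm)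
  rw [← e, map_sum] at h1
  simpa [e2] using h1

end

theorem exists_discont {G : Type*} [Group G] [TopologicalSpace G] [IsTopologicalGroup G]
    [CompactSpace G] [TotallyDisconnectedSpace G] [MeasurableSpace G] [BorelSpace G]
    (μ : Measure G) [μ.IsHaarMeasure] [IsProbabilityMeasure μ] (q : ℝ≥0∞) [Fact (1 ≤ q)]
    (h : ∀ S : Finset G, ¬ Dense (Subgroup.closure (S : Set G) : Set G)) :
    ∃ φ : Lp ℂ q μ →ₗ[ℂ] ℂ, (∀ (a : G) (f g : Lp ℂ q μ),
      (g : G → ℂ) =ᵐ[μ] (fun x => (f : G → ℂ) (a * x)) → φ g = φ f) ∧ ¬ Continuous φ := by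
  classical
  choose N hN hV using conv_unif h
  let u : ℕ → Lp ℂ q μ := fun r => ((2⁻¹ ^ r : ℝ) : ℂ) • ind μ q (hN r).measurableSet
  have hs : Summable u := by
    refine Summable.of_norm_bounded (summable_geometric_of_lt_one (r := 2⁻¹) (by norm_num)
      (by norm_num)) fun r => ?_
    rw [norm_smul, Complex.norm_real, Real.norm_of_nonneg (by positivity)]
    refine mul_le_of_le_one_right (by positivity) (norm_indicatorConstLp_le.trans ?_)
    rw [norm_one, one_mul]
    exact Real.rpow_le_one measureReal_nonneg measureReal_le_one (by positivity)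
  let L : Subgroup G → Lp ℂ q μ →L[ℂ] ℂ := fun V =>
    sInt μ q V - (μ.real V : ℂ) • sInt μ q (⊤ : Subgroup G)
  have hL : ∀ V : Subgroup G, IsOpen (V : Set G) → ∀ (s : Set G) (m : MeasurableSet s),
      L V (ind μ q m) = ((μ.real (s ∩ V) - μ.real V * μ.real s : ℝ) : ℂ) := fun V o s m => by
    simp [L, sInt_apply, ind, setIntegral_indicatorConstLp o.measurableSet,
      integral_indicatorConstLp]
  let D : Submodule ℂ (Lp ℂ q μ) := Submodule.span ℂ (insert (ind μ q MeasurableSet.univ)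
    {w | ∃ (a : G) (f g : Lp ℂ q μ), (g : G → ℂ) =ᵐ[μ] (fun x => f (a * x)) ∧ w = g - f})
  have hD : ∀ w ∈ D, ∃ S : Finset G, ∀ V : Subgroup G, IsOpen (V : Set G) →
      (∀ a ∈ S, a ∈ V) → L V w = 0 := by
    intro w hw
    induction hw using Submodule.span_induction with
    | mem w hw =>
      rcases hw with rfl | ⟨a, f, g, e, rfl⟩
      · exact ⟨∅, fun V o _ => by simp [hL V o]⟩
      · refine ⟨{a}, fun V o ha => ?_⟩
        simp only [L, map_sub, sub_apply, smul_apply,
          sInt_tr μ q o (ha a (mem_singleton_self a)) e,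
          sInt_tr μ q (V := ⊤) isOpen_univ (Subgroup.mem_top a) e, sub_self]
    | zero => exact ⟨∅, fun _ _ _ => map_zero _⟩
    | add u v _ _ hu hv =>
      obtain ⟨S, hS⟩ := hu
      obtain ⟨S', hS'⟩ := hv
      exact ⟨S ∪ S', fun V o hV => by
        rw [map_add, hS V o fun a ha => hV a (mem_union_left _ ha),
          hS' V o fun a ha => hV a (mem_union_right _ ha), add_zero]⟩
    | smul c u _ hu =>
      obtain ⟨S, hS⟩ := hu
      exact ⟨S, fun V o hV => by rw [map_smul, hS V o hV, smul_zero]⟩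
  have nK : ∑' r, u r ∉ D := fun hK => by
    obtain ⟨S, hS⟩ := hD _ hK
    obtain ⟨V, v1, v2, v3⟩ := hV #S fun i => S.equivFin.symm i
    have o := Subgroup.isOpen_mono v2 (hN _)
    have h1 := hS V o fun a ha => by simpa using v3 (S.equivFin ⟨a, ha⟩)
    have e : ∀ r, L V (u r) =
        ((2⁻¹ ^ r * (μ.real (N r ∩ V : Set G) - μ.real V * μ.real (N r)) : ℝ) : ℂ) := fun r => by
      simp only [u, map_smul, hL V o, smul_eq_mul, Complex.ofReal_mul]
    have h2 := (L V).summable hs
    rw [(L V).map_tsum hs] at h1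
    simp only [e] at h1 h2
    rw [← Complex.ofReal_tsum, Complex.ofReal_eq_zero] at h1
    obtain ⟨p1, p2⟩ := conv_index μ o
    refine ((Complex.summable_ofReal.1 h2).tsum_pos (fun r => mul_nonneg (by positivity) ?_) #S
      (mul_pos (by positivity) ?_)).ne' h1
    · obtain ⟨p3, p4⟩ := conv_index μ (hN r)
      obtain ⟨p5, p6⟩ := conv_index μ (V := N r ⊓ V) ((hN r).inter o)
      rw [← Subgroup.coe_inf, p2, p4, p6, sub_nonneg, ← mul_inv, mul_comm, ← Nat.cast_mul]
      exact inv_anti₀ (Nat.cast_pos.2 p5) (Nat.cast_le.2 Subgroup.index_inf_le)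
    · obtain ⟨p3, p4⟩ := conv_index μ (hN #S)
      rw [Set.inter_eq_left.2 v2, ← one_sub_mul, p2, p4]
      refine mul_pos (sub_pos.2 (inv_lt_one_of_one_lt₀ (Nat.one_lt_cast.2 ?_))) (by positivity)
      exact lt_of_le_of_ne p1 fun k => v1 (Subgroup.index_eq_one.1 k.symm)
  obtain ⟨φ, h1, h2⟩ := Submodule.exists_le_ker_of_notMem nK
  have inv : ∀ (a : G) (f g : Lp ℂ q μ), (g : G → ℂ) =ᵐ[μ] (fun x => f (a * x)) → φ g = φ f :=
    fun a f g e => by
      rw [← sub_eq_zero, ← map_sub]
      exact h2 (Submodule.subset_span (Or.inr ⟨a, f, g, e, rfl⟩))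
  have z := fun r => conv_zero μ q φ inv (h2 (Submodule.subset_span (Or.inl rfl))) (hN r)
  exact ⟨φ, inv, fun hc => h1 (((⟨φ, hc⟩ : Lp ℂ q μ →L[ℂ] ℂ).map_tsum hs).trans (by simp [u, z]))⟩

end Pool.Agent.Lib.MP_cd2b7c_an.NA
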