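import Mathlib

/-! Averages over words, lazy walks, and the class of subgroups used below. -/

open Finset

namespace Pool.Agent.Lib.MP_cd2b7c_an.NA

variable {G : Type*} [Group G]

/-- Average of the images of a finite family of group elements. -/
noncomputable def av {A Λ : Type*} [Ring A] [Algebra ℂ A] [Fintype Λ] (ρ : G →* A) (σ : Λ → G) :
    A := (Fintype.card Λ : ℂ)⁻¹ • ∑ l, ρ (σ l)

/-- The letters of the lazy walk. -/
def lt {ι : Type*} (s : ι → G) (l : ι × Bool × Bool) : G :=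
  (if l.2.1 then (s l.1)⁻¹ else 1) * (if l.2.2 then s l.1 else 1)

/-- Words of length `t`. -/
def wd {Λ : Type*} (σ : Λ → G) (t : ℕ) (w : Fin t → Λ) : G := (List.ofFn fun i => σ (w i)).prod

/-- One free element and a conjugate of the generators. -/
def gn {κ : Type*} (c : κ → G) (z : G × G) (o : Option κ) : G :=
  o.elim z.1 fun i => z.2 * c i * z.2⁻¹

/-- Several copies. -/
def gk {κ : Type*} (c : κ → G) {k : ℕ} (ω : Fin k → G × G) (j : Fin k × Option κ) : G :=
  gn c (ω j.1) j.2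

/-- A normal chain in `U` with central or cyclic factors that ends in a commutative subgroup. -/
def Cl (U : Subgroup G) : Prop :=
  ∃ (k : ℕ) (N : ℕ → Subgroup U), N 0 = ⊤ ∧ (∀ j, (N j).Normal) ∧
    (∀ j < k, ⁅N j, ⊤⁆ ≤ N (j + 1) ∨ ∃ g, N j ≤ N (j + 1) ⊔ Subgroup.zpowers g) ∧ ⁅N k, N k⁆ = ⊥

end Pool.Agent.Lib.MP_cd2b7c_an.NA
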