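import Pool.Agent.Lib.MP_cd2b7c_an.NA.Marc

/-! Approximation by functions on finite quotients, and the passage to all bounded functions. -/

open Finset MeasureTheory
open scoped ENNReal

namespace Pool.Agent.Lib.MP_cd2b7c_an.NA

theorem dens_add {X : Type*} [MeasurableSpace X] (m : Measure X) {u v : X → ℂ}
    (hu : Measurable u) (hv : Measurable v) :
    ∫⁻ x, ‖u x + v x‖ₑ ^ 2 ∂m ≤ 2 * ∫⁻ x, ‖u x‖ₑ ^ 2 ∂m + 2 * ∫⁻ x, ‖v x‖ₑ ^ 2 ∂m := by
  rw [← mul_add, ← lintegral_add_left (hu.enorm.pow_const 2),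
    ← lintegral_const_mul' _ _ ENNReal.ofNat_ne_top]
  refine lintegral_mono fun x => ?_
  have h : ‖u x + v x‖₊ ^ 2 ≤ 2 * (‖u x‖₊ ^ 2 + ‖v x‖₊ ^ 2) :=
    (pow_le_pow_left₀ zero_le (nnnorm_add_le _ _) 2).trans add_sq_le
  have h' := ENNReal.coe_le_coe.2 h
  push_cast at h'
  exact h'

theorem dens_bd {X : Type*} [MeasurableSpace X] (m : Measure X) {u : X → ℂ} {K : ℝ}
    (hK : ∀ x, ‖u x‖ ≤ K) : ∫⁻ x, ‖u x‖ₑ ^ 2 ∂m ≤ ENNReal.ofReal K * ∫⁻ x, ‖u x‖ₑ ∂m := by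
  rw [← lintegral_const_mul' _ _ ENNReal.ofReal_ne_top]
  refine lintegral_mono fun x => ?_
  rw [sq]
  gcongr
  rw [← ofReal_norm]
  exact ENNReal.ofReal_le_ofReal (hK x)

variable {G : Type*} [Group G] [TopologicalSpace G] [IsTopologicalGroup G] [CompactSpace G]
  [TotallyDisconnectedSpace G] [SecondCountableTopology G] [MeasurableSpace G] [BorelSpace G]
  {μ : Measure G} [IsProbabilityMeasure μ] [μ.IsMulLeftInvariant]
  {A : Type*} [MeasurableSpace A] {ν : Measure A} [IsProbabilityMeasure ν]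
  {β : Type*} {I : Finset β} {p : β → ℝ} {σ : β → A → G}

omit [μ.IsMulLeftInvariant] in
theorem dens_apx {g : G → ℂ} (hg : Measurable g) {M : ℝ} (hM : ∀ x, ‖g x‖ ≤ M) {δ : ℝ}
    (δ0 : 0 < δ) : ∃ N : OpenNormalSubgroup G, ∃ F : G ⧸ N.toSubgroup → ℂ,
      (∀ y, ‖F y‖ ≤ 2 * M) ∧ ∫⁻ x, ‖g x - F x‖ₑ ∂μ ≤ 2 * ENNReal.ofReal δ := by
  have M0 : 0 ≤ M := (norm_nonneg _).trans (hM 1)
  obtain ⟨k, hk, -⟩ := (Integrable.of_bound (μ := μ) hg.aestronglyMeasurable M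
    (ae_of_all _ hM)).exists_boundedContinuous_lintegral_sub_le (ENNReal.ofReal_pos.2 δ0).ne'
  have h1 : ∀ᶠ n in nhds (1 : G), ∀ x ∈ Set.univ, ‖k x - k (x * n)‖ < δ :=
    isCompact_univ.eventually_forall_of_forall_eventually fun x _ =>
      ContinuousAt.eventually_lt (f := fun z : G × G => ‖k z.2 - k (z.2 * z.1)‖)
        (g := fun _ => δ) (by fun_prop) continuousAt_const (by simpa using δ0)
  obtain ⟨U, hU, oU, mU⟩ := mem_nhds_iff.1 h1
  obtain ⟨N, hN⟩ := ProfiniteGrp.exist_openNormalSubgroup_sub_open_nhds_of_one oU mU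
  refine ⟨N, fun y => if ‖k y.out‖ ≤ 2 * M then k y.out else 0, fun y => ?_, ?_⟩
  · beta_reduce
    split_ifs with h
    · exact h
    · rw [norm_zero]; linarith
  · calc _ ≤ ∫⁻ x, (‖g x - k x‖ₑ + ENNReal.ofReal δ) ∂μ := lintegral_mono fun x => by
          obtain ⟨n, hn⟩ := QuotientGroup.mk_out_eq_mul N.toSubgroup x
          have h2 := hU (hN n.2) x trivial
          have h3 := norm_sub_le_norm_sub_add_norm_sub (g x) (k x) (k (x * n))
          have h4 := norm_sub_norm_le (k (x * n)) (g x)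
          rw [norm_sub_rev] at h4
          simp only [hn]
          rw [← ofReal_norm, ← ofReal_norm, ← ENNReal.ofReal_add (norm_nonneg _) δ0.le]
          refine ENNReal.ofReal_le_ofReal ?_
          split_ifs with h
          · linarith
          · rw [sub_zero]; linarith [hM x]
      _ ≤ _ := by
          rw [lintegral_add_right _ measurable_const, lintegral_const, measure_univ, mul_one,
            two_mul]
          gcongr

theorem Tav_dens (hσ : ∀ i, Measurable (σ i)) (p0 : ∀ i, 0 ≤ p i) (p1 : ∑ i ∈ I, p i = 1)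
    {ε : ℝ} (ε0 : 0 < ε)
    (h : ∀ (N : Subgroup G) [N.Normal], IsOpen (N : Set G) → ∀ F : G ⧸ N → ℂ,
      ∫⁻ z, ‖Tav μ I p σ (fun x => F x) z‖ₑ ^ 2 ∂(ν.prod μ) ≤
        ENNReal.ofReal ε * ∫⁻ x, ‖F (x : G)‖ₑ ^ 2 ∂μ)
    (g : G → ℂ) (hg : Measurable g) (hb : ∃ M, ∀ x, ‖g x‖ ≤ M) :
    ∫⁻ z, ‖Tav μ I p σ g z‖ₑ ^ 2 ∂(ν.prod μ) ≤ ENNReal.ofReal (100 * ε) * ∫⁻ x, ‖g x‖ₑ ^ 2 ∂μ := by
  obtain ⟨M, hM⟩ := hb
  refine ENNReal.le_of_forall_pos_le_add fun η η0 _ => ?_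
  obtain ⟨δ, δ0, hδ⟩ := ENNReal.exists_nnreal_pos_mul_lt
    (a := 8 * ENNReal.ofReal ε * ENNReal.ofReal (3 * M) + 8 * ENNReal.ofReal (2 * (3 * M)))
    (b := η) (by finiteness) (ENNReal.coe_pos.2 η0).ne'
  obtain ⟨N, F, hF, hI⟩ := dens_apx (μ := μ) hg hM (NNReal.coe_pos.2 δ0)
  rw [ENNReal.ofReal_coe_nnreal] at hI
  have := QuotientGroup.discreteTopology N.isOpen
  have mF : Measurable fun x : G => F x :=
    (continuous_of_discreteTopology.comp QuotientGroup.continuous_mk).measurable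
  have mh : Measurable fun x : G => g x - F x := hg.sub mF
  have bh : ∀ x : G, ‖g x - F x‖ ≤ 3 * M := fun x => by
    linarith [norm_sub_le (g x) (F x), hM x, hF x]
  have e : ∀ z, Tav μ I p σ g z =
      Tav μ I p σ (fun x => F x) z + Tav μ I p σ (fun x => g x - F x) z := fun z => by
    rw [← Tav_add (Integrable.of_bound mF.aestronglyMeasurable _ (ae_of_all _ fun x => hF x))
      (Integrable.of_bound mh.aestronglyMeasurable _ (ae_of_all _ bh))]
    simp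
  have h1 := dens_add (ν.prod μ) (Tav_meas (μ := μ) (I := I) (p := p) hσ mF)
    (Tav_meas (μ := μ) (I := I) (p := p) hσ mh)
  have h2 := dens_add μ hg mh.neg
  have h3 := (dens_bd μ bh).trans (mul_le_mul_right hI _)
  have h4 := (dens_bd (ν.prod μ) (Tav_sup (μ := μ) (σ := σ) p0 p1 bh)).trans
    (mul_le_mul_right ((Tav_one hσ p0 p1 mh).trans (mul_le_mul_right hI _)) _)
  simp only [← e] at h1
  simp only [Pi.neg_apply, enorm_neg, ← sub_eq_add_neg, sub_sub_cancel] at h2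
  have h5 := (h N.toSubgroup N.isOpen F).trans (mul_le_mul_right
    (h2.trans (add_le_add_right (mul_le_mul_right h3 _) _)) _)
  have h6 : 4 * ENNReal.ofReal ε ≤ ENNReal.ofReal (100 * ε) := by
    rw [ENNReal.ofReal_mul (by norm_num), ENNReal.ofReal_ofNat]
    gcongr
    norm_num
  calc _ ≤ _ := h1.trans (add_le_add (mul_le_mul_right h5 _) (mul_le_mul_right h4 _))
    _ = 4 * ENNReal.ofReal ε * ∫⁻ x, ‖g x‖ₑ ^ 2 ∂μ + δ * (8 * ENNReal.ofReal ε *
        ENNReal.ofReal (3 * M) + 8 * ENNReal.ofReal (2 * (3 * M))) := by ring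
    _ ≤ _ := add_le_add (mul_le_mul_left h6 _) hδ.le

end Pool.Agent.Lib.MP_cd2b7c_an.NA
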