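import Pool.Agent.Lib.MP_cd2b7c_an.NA.Boost
import Pool.Agent.Lib.MP_cd2b7c_an.NA.Marc

/-! The mean square bound for functions on a finite quotient. -/

open Finset MeasureTheory
open scoped ENNReal BigOperators

namespace Pool.Agent.Lib.MP_cd2b7c_an.NA

section unif

variable {H X : Type*} [Group H] [MeasurableSpace H] [MeasurableMul H] (ν : Measure H)
  [IsProbabilityMeasure ν] [ν.IsMulLeftInvariant] [Group X] [Fintype X] [MeasurableSpace X]
  [MeasurableSingletonClass X] {φ : H →* X} (hs : Function.Surjective φ) (hm : Measurable φ)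
include hs hm

theorem unif_single (x : X) : ν.map φ {x} = (Fintype.card X : ℝ≥0∞)⁻¹ := by
  have h1 : ∀ y : X, ν.map φ {y} = ν.map φ {x} := fun y => by
    obtain ⟨h, hh⟩ := hs (x * y⁻¹)
    rw [Measure.map_apply hm (measurableSet_singleton _),
      Measure.map_apply hm (measurableSet_singleton _), ← measure_preimage_mul ν h (φ ⁻¹' {x})]
    refine congrArg ν (Set.ext fun g => ?_)
    simp only [Set.mem_preimage, Set.mem_singleton_iff, map_mul, hh]
    exact ⟨fun e => by rw [e, inv_mul_cancel_right], fun e => by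
      rw [mul_assoc, mul_eq_left, inv_mul_eq_one] at e; exact e.symm⟩
  have : IsProbabilityMeasure (ν.map φ) := Measure.isProbabilityMeasure_map hm.aemeasurable
  have h2 : ∑ y : X, ν.map φ {y} = 1 := by
    rw [sum_measure_singleton, coe_univ, measure_univ]
  simp only [h1, sum_const, card_univ, nsmul_eq_mul] at h2
  exact ENNReal.eq_inv_of_mul_eq_one_left (by rw [mul_comm]; exact h2)

theorem unif_int (f : X → ℂ) : ∫ h, f (φ h) ∂ν = (Fintype.card X : ℂ)⁻¹ * ∑ x, f x := by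
  have : IsProbabilityMeasure (ν.map φ) := Measure.isProbabilityMeasure_map hm.aemeasurable
  rw [← integral_map hm.aemeasurable (measurable_of_finite f).aestronglyMeasurable,
    integral_fintype Integrable.of_finite, mul_sum]
  refine sum_congr rfl fun x _ => ?_
  rw [Measure.real, unif_single ν hs hm]
  simp

theorem unif_lint (f : X → ℂ) : ∫⁻ h, ‖f (φ h)‖ₑ ^ 2 ∂ν =
    ENNReal.ofReal ((Fintype.card X : ℝ)⁻¹ * ∑ x, ‖f x‖ ^ 2) := by
  rw [← lintegral_map (f := fun x => ‖f x‖ₑ ^ 2) (measurable_of_finite _) hm, lintegral_fintype,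
    ENNReal.ofReal_mul (by positivity), ENNReal.ofReal_sum_of_nonneg fun _ _ => by positivity,
    ENNReal.ofReal_inv_of_pos (by exact_mod_cast Fintype.card_pos), ENNReal.ofReal_natCast, mul_sum]
  refine sum_congr rfl fun x _ => ?_
  rw [unif_single ν hs hm, mul_comm, ENNReal.ofReal_pow (norm_nonneg _), ofReal_norm]

end unif

section reg

variable (Q : Type*) [Group Q] [Fintype Q]

/-- The left regular representation. -/
noncomputable def reg : Q →* (EuclideanSpace ℂ Q →L[ℂ] EuclideanSpace ℂ Q) where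
  toFun x := (LinearIsometryEquiv.piLpCongrLeft 2 ℂ ℂ (Equiv.mulLeft x)).toContinuousLinearEquiv
  map_one' := by
    ext v y
    exact congrArg v (show 1⁻¹ * y = y by rw [inv_one, one_mul])
  map_mul' x z := by
    ext v y
    exact congrArg v (show (x * z)⁻¹ * y = z⁻¹ * (x⁻¹ * y) by rw [mul_inv_rev, mul_assoc])

variable {Q}

theorem reg_apply (x : Q) (v : EuclideanSpace ℂ Q) (y : Q) : reg Q x v y = v (x⁻¹ * y) := rfl

theorem reg_iso (x : Q) (u v : EuclideanSpace ℂ Q) :
    inner ℂ (reg Q x u) (reg Q x v) = inner ℂ u v :=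
  (LinearIsometryEquiv.piLpCongrLeft 2 ℂ ℂ (Equiv.mulLeft x)).inner_map_map u v

theorem sum_sub_mean (F : Q → ℂ) : ∑ y, (F y - (Fintype.card Q : ℂ)⁻¹ * ∑ x, F x) = 0 := by
  have c0 : (Fintype.card Q : ℂ) ≠ 0 := by exact_mod_cast Fintype.card_ne_zero
  rw [sum_sub_distrib, sum_const, card_univ, nsmul_eq_mul, mul_inv_cancel_left₀ c0, sub_self]

theorem fin_step {U : Subgroup Q} (hU : Cl U) {I : ℕ} (hI : U.index ≤ I) {κ : Type*} [Fintype κ]
    {c : κ → Q} (hc : Subgroup.closure (Set.range c) = ⊤) {k R t : ℕ} (k0 : 0 < k) (R0 : 0 < R)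
    (ht : tm (Fintype.card κ) I k * R ^ 11 ≤ t) (F : Q → ℂ) :
    (Fintype.card ((Fin k → Q × Q) × Q) : ℝ)⁻¹ * ∑ z : (Fin k → Q × Q) × Q,
      ‖∑ w : Fin t → (Fin k × Option κ) × Bool × Bool,
        (((Fintype.card (Fin t → (Fin k × Option κ) × Bool × Bool) : ℝ)⁻¹ : ℝ) : ℂ) *
          F ((wd (lt (gk c z.1)) t w)⁻¹ * z.2) - (Fintype.card Q : ℂ)⁻¹ * ∑ x, F x‖ ^ 2 ≤
      5 * (8 / R) ^ k * ((Fintype.card Q : ℝ)⁻¹ * ∑ x, ‖F x‖ ^ 2) := by
  classical
  have : Nonempty (Fin k) := ⟨⟨0, k0⟩⟩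
  set m : ℂ := (Fintype.card Q : ℂ)⁻¹ * ∑ x, F x with hm
  let v : EuclideanSpace ℂ Q := WithLp.toLp 2 fun y => F y - m
  have hv : ∑ x, reg Q x v = 0 := by
    ext y
    rw [WithLp.ofLp_sum, Finset.sum_apply]
    exact (Fintype.sum_equiv ((Equiv.inv Q).trans (Equiv.mulRight y)) _ (fun y => F y - m)
      fun x => rfl).trans (sum_sub_mean F)
  have h1 := fin_decay reg_iso hU hI hc k0 R0 ht hv
  have h2 : ‖v‖ ^ 2 ≤ ∑ x, ‖F x‖ ^ 2 := by
    let e : EuclideanSpace ℂ Q := WithLp.toLp 2 fun _ => m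
    have h3 : inner ℂ e v = 0 := by
      rw [PiLp.inner_apply]
      show ∑ y, inner ℂ m (F y - m) = 0
      rw [← inner_sum, sum_sub_mean, inner_zero_right]
    have h4 := norm_add_sq_eq_norm_sq_add_norm_sq_of_inner_eq_zero (𝕜 := ℂ) e v h3
    have h5 : ‖e + v‖ ^ 2 = ∑ x, ‖F x‖ ^ 2 := by
      rw [EuclideanSpace.norm_sq_eq]
      exact sum_congr rfl fun x _ => by
        rw [show (e + v) x = F x from add_sub_cancel m (F x)]
    nlinarith [mul_self_nonneg ‖e‖]
  have h6 : ∀ ω : Fin k → Q × Q, ∑ y : Q, ‖∑ w : Fin t → (Fin k × Option κ) × Bool × Bool,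
      (((Fintype.card (Fin t → (Fin k × Option κ) × Bool × Bool) : ℝ)⁻¹ : ℝ) : ℂ) *
        F ((wd (lt (gk c ω)) t w)⁻¹ * y) - m‖ ^ 2 =
      ‖(av (reg Q) (lt (gk c ω)) ^ t) v‖ ^ 2 := fun ω => by
    rw [EuclideanSpace.norm_sq_eq, av_pow, av_apply]
    refine sum_congr rfl fun y _ => ?_
    have c0 : (Fintype.card (Fin t → (Fin k × Option κ) × Bool × Bool) : ℂ) ≠ 0 := by
      exact_mod_cast Fintype.card_ne_zero
    rw [PiLp.smul_apply, WithLp.ofLp_sum, Finset.sum_apply, smul_eq_mul]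
    show _ = ‖_ * ∑ w, (F ((wd (lt (gk c ω)) t w)⁻¹ * y) - m)‖ ^ 2
    rw [sum_sub_distrib, sum_const, card_univ, nsmul_eq_mul, mul_sub, inv_mul_cancel_left₀ c0,
      mul_sum, Complex.ofReal_inv, Complex.ofReal_natCast]
  rw [Fintype.sum_prod_type]
  simp only [h6]
  rw [Fintype.expect_eq_sum_div_card] at h1
  rw [Fintype.card_prod, Nat.cast_mul, mul_inv, mul_right_comm, inv_mul_eq_div, mul_comm _⁻¹ (∑ x, _),
    ← mul_assoc]
  refine mul_le_mul_of_nonneg_right (h1.trans ?_) (by positivity)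
  exact mul_le_mul_of_nonneg_left h2 (by positivity)

end reg

theorem map_wd {G Q : Type*} [Group G] [Group Q] (φ : G →* Q) {κ : Type*} (c : κ → G) {k : ℕ}
    (ω : Fin k → G × G) (t : ℕ) (w : Fin t → (Fin k × Option κ) × Bool × Bool) :
    φ (wd (lt (gk c ω)) t w) = wd (lt (gk (φ ∘ c) fun i => (φ (ω i).1, φ (ω i).2))) t w := by
  have h : ∀ l, φ (lt (gk c ω) l) = lt (gk (φ ∘ c) fun i => (φ (ω i).1, φ (ω i).2)) l := by
    rintro ⟨⟨i, _ | j⟩, _ | _, _ | _⟩ <;> simp [lt, gk, gn]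
  rw [wd, wd, map_list_prod, List.map_ofFn]
  exact congrArg (fun f => (List.ofFn f).prod) (funext fun i => h _)

variable {G : Type*} [Group G] [TopologicalSpace G] [IsTopologicalGroup G] [CompactSpace G]
  [SecondCountableTopology G] [MeasurableSpace G] [BorelSpace G] (μ : Measure G)
  [IsProbabilityMeasure μ] [μ.IsMulLeftInvariant]

/-- The random walk operator applied to a function, minus the mean. -/
noncomputable def Tw {κ : Type} [Fintype κ] (c : κ → G) (k t : ℕ) (g : G → ℂ) :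
    (Fin k → G × G) × G → ℂ :=
  Tav μ (univ : Finset (Fin t → (Fin k × Option κ) × Bool × Bool))
    (fun _ => (Fintype.card (Fin t → (Fin k × Option κ) × Bool × Bool) : ℝ)⁻¹)
    (fun w ω => (wd (lt (gk c ω)) t w)⁻¹) g

theorem step {U N : Subgroup G} [N.Normal] (hN : IsOpen (N : Set G)) [U.FiniteIndex]
    (hU : Cl (U.map (QuotientGroup.mk' N))) {κ : Type} [Fintype κ] {c : κ → G}
    (hc : Dense (Subgroup.closure (Set.range c) : Set G)) {k R t : ℕ} (k0 : 0 < k) (R0 : 0 < R)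
    (ht : tm (Fintype.card κ) U.index k * R ^ 11 ≤ t) (F : G ⧸ N → ℂ) :
    ∫⁻ z, ‖Tw μ c k t (fun x => F x) z‖ₑ ^ 2 ∂((Measure.pi fun _ : Fin k => μ.prod μ).prod μ) ≤
      ENNReal.ofReal (5 * (8 / R) ^ k) * ∫⁻ x, ‖F (x : G)‖ₑ ^ 2 ∂μ := by
  have : DiscreteTopology (G ⧸ N) := QuotientGroup.discreteTopology hN
  have : Finite (G ⧸ N) := N.quotient_finite_of_isOpen hN
  let _ : Fintype (G ⧸ N) := Fintype.ofFinite _
  let _ : MeasurableSpace (G ⧸ N) := ⊤
  have hs := QuotientGroup.mk'_surjective N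
  have hk : Continuous (QuotientGroup.mk' N) := QuotientGroup.continuous_mk
  have hm : Measurable (QuotientGroup.mk' N) := fun s _ =>
    ((isOpen_discrete s).preimage hk).measurableSet
  let φ : (Fin k → G × G) × G →* (Fin k → (G ⧸ N) × (G ⧸ N)) × (G ⧸ N) :=
    (((QuotientGroup.mk' N).prodMap (QuotientGroup.mk' N)).compLeft (Fin k)).prodMap
      (QuotientGroup.mk' N)
  have φs : Function.Surjective φ := (hs.prodMap hs).comp_left.prodMap hs
  have φm : Measurable φ :=
    (measurable_pi_lambda _ fun i => (hm.prodMap hm).comp (measurable_pi_apply i)).prodMap hm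
  have hc' : Subgroup.closure (Set.range (QuotientGroup.mk' N ∘ c)) = ⊤ := by
    rw [Set.range_comp, ← MonoidHom.map_closure, ← Subgroup.coe_eq_univ, Subgroup.coe_map]
    exact (isClosed_discrete _).closure_eq.symm.trans
      (hs.denseRange.dense_image hk hc).closure_eq
  have hI : (U.map (QuotientGroup.mk' N)).index ≤ U.index :=
    Nat.le_of_dvd (Nat.pos_of_ne_zero Subgroup.FiniteIndex.index_ne_zero) (U.index_map_dvd hs)
  have h1 := fin_step hU hI hc' k0 R0 ht F
  have h2 := unif_lint μ hs hm F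
  have h3 := unif_int μ hs hm F
  have : (μ.prod μ).IsMulLeftInvariant := inferInstance
  have : MeasurableMul (G × G) := inferInstance
  have : (Measure.pi fun _ : Fin k => μ.prod μ).IsMulLeftInvariant := inferInstance
  have : MeasurableMul (Fin k → G × G) := inferInstance
  have : ((Measure.pi fun _ : Fin k => μ.prod μ).prod μ).IsMulLeftInvariant := inferInstance
  refine le_trans (le_of_eq ?_) ((ENNReal.ofReal_le_ofReal h1).trans (le_of_eq ?_))
  · rw [← unif_lint ((Measure.pi fun _ : Fin k => μ.prod μ).prod μ) φs φm]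
    refine lintegral_congr fun z => congrArg (fun a : ℂ => ‖a‖ₑ ^ 2) ?_
    rw [← h3]
    refine congrArg (· - _) (sum_congr rfl fun w _ => congrArg (_ * F ·) ?_)
    exact (map_mul (QuotientGroup.mk' N) _ _).trans (by rw [map_inv, map_wd]; rfl)
  · rw [ENNReal.ofReal_mul (by positivity), ← h2]
    rfl

end Pool.Agent.Lib.MP_cd2b7c_an.NA
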