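import Pool.Agent.Lib.MP_cd2b7c_an.NA.Rep
import Pool.Agent.Lib.MP_cd2b7c_an.NA.Step
import Pool.Agent.Lib.MP_cd2b7c_an.NA.Dens

/-! Automatic continuity for profinite groups with a finitely generated dense subgroup. -/

open Finset MeasureTheory
open scoped ENNReal

namespace Pool.Agent.Lib.MP_cd2b7c_an.NA

variable {G : Type*} [Group G] [TopologicalSpace G] [IsTopologicalGroup G] [CompactSpace G]
  [TotallyDisconnectedSpace G] [SecondCountableTopology G] [MeasurableSpace G] [BorelSpace G]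
  (μ : Measure G) [IsProbabilityMeasure μ] [μ.IsMulLeftInvariant] (q : ℝ≥0∞) [Fact (1 ≤ q)]
  (h1 : 1 < q) (hq : q ≠ ∞) {U : Subgroup G} [U.FiniteIndex]
  (hU : ∀ (N : Subgroup G) [N.Normal], IsOpen (N : Set G) → Cl (U.map (QuotientGroup.mk' N)))
  {κ : Type} [Fintype κ] {c : κ → G} (hc : Dense (Subgroup.closure (Set.range c) : Set G))
include h1 hq hU hc

theorem exists_summable (f : Lp ℂ q μ) : ∃ (k : ℕ) (_ : 0 < k) (ω : Fin k → G × G),
    Summable fun t => ‖(av (rep μ q) (lt (gk c ω)) ^ t) (cen μ q f)‖ := by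
  classical
  set s := q.toReal
  have s1 : 1 < s := by
    have := (ENNReal.toReal_lt_toReal ENNReal.one_ne_top hq).2 h1
    simpa using this
  have s2 : 0 < s - 1 := by linarith
  set W : ℝ := 4096 ^ s
  have W1 : 1 ≤ W := Real.one_le_rpow (by norm_num) (by linarith)
  set D : ℝ := (2 * W) ^ (s - 1)⁻¹
  have D1 : 1 ≤ D := Real.one_le_rpow (by linarith) (by positivity)
  have D2 : D ^ (s - 1) = 2 * W := Real.rpow_inv_rpow (by positivity) s2.ne'
  obtain ⟨J, hJ⟩ := exists_pow_lt_of_lt_one (show 0 < 1 / (2 * W * D ^ 2) by positivity)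
    (show (2⁻¹ : ℝ) < 1 by norm_num)
  obtain ⟨k, k0, hk⟩ : ∃ k, 0 < k ∧ (2⁻¹ : ℝ) ^ k ≤ 1 / (2 * W * D ^ 2) :=
    ⟨J + 1, J.succ_pos, (pow_le_pow_of_le_one (by norm_num) (by norm_num) J.le_succ).trans hJ.le⟩
  have : Nonempty (Fin k) := ⟨⟨0, k0⟩⟩
  refine ⟨k, k0, ?_⟩
  set T := tm (Fintype.card κ) U.index k
  have T0 : 0 < T := by
    have := Nat.pos_of_ne_zero (Subgroup.FiniteIndex.index_ne_zero (H := U))
    simp only [T, tm]
    positivity
  set ν : Measure (Fin k → G × G) := Measure.pi fun _ => μ.prod μ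
  set g := (Lp.aestronglyMeasurable f).mk f
  have hg : Measurable g := (Lp.aestronglyMeasurable f).stronglyMeasurable_mk.measurable
  have fg : f =ᵐ[μ] g := (Lp.aestronglyMeasurable f).ae_eq_mk
  have ig : Integrable g μ := ((Lp.memLp f).integrable h1.le).congr fg
  set K : ℝ := 8000 * 8 ^ k * 4 ^ s + 8 * s / (s - 1)
  have K0 : 0 ≤ K := by positivity
  have ct := fun t => wd_cont (lt_cont c k) t
  let φ : ℕ → (Fin k → G × G) → ℝ≥0∞ := fun n ω => ENNReal.ofReal (W ^ n) *
    ENNReal.ofReal (‖av (rep μ q) (wd (lt (gk c ω)) (T * 2048 ^ n)) (cen μ q f)‖ ^ s)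
  have mφ : ∀ n, Measurable (φ n) := fun n =>
    ((av_cont μ q hq (ct _) _).norm.measurable.pow_const s).ennreal_ofReal.const_mul _
  have iφ : ∀ n, ∫⁻ a, φ n a ∂ν ≤ ENNReal.ofReal (K * 2⁻¹ ^ n) * ENNReal.ofReal (‖f‖ ^ s) := by
    intro n
    have ms : ∀ w, Measurable fun ω : Fin k → G × G => (wd (lt (gk c ω)) (T * 2048 ^ n) w)⁻¹ :=
      fun w => (ct (T * 2048 ^ n) w).inv.measurable
    have p0 : ∀ _ : Fin (T * 2048 ^ n) → (Fin k × Option κ) × Bool × Bool, (0 : ℝ) ≤
        (Fintype.card (Fin (T * 2048 ^ n) → (Fin k × Option κ) × Bool × Bool) : ℝ)⁻¹ :=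
      fun _ => by positivity
    have p1 : ∑ _w : Fin (T * 2048 ^ n) → (Fin k × Option κ) × Bool × Bool,
        (Fintype.card (Fin (T * 2048 ^ n) → (Fin k × Option κ) × Bool × Bool) : ℝ)⁻¹ = 1 := by
      rw [sum_const, card_univ, nsmul_eq_mul, mul_inv_cancel₀]
      exact_mod_cast Fintype.card_ne_zero
    have h2 := Tav_dens (μ := μ) (ν := ν) ms p0 p1
      (ε := 5 * 8 ^ k * (1 / (2 * W * D ^ 2)) ^ n) (by positivity) fun N _ hN F => by
        refine (step μ hN (hU N hN) hc k0 (R := 2 ^ n) (by positivity) (le_of_eq ?_) F).trans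
          (mul_le_mul_left (ENNReal.ofReal_le_ofReal ?_) _)
        · rw [← pow_mul, mul_comm n, pow_mul]
          norm_num [T]
        · push_cast
          rw [div_eq_mul_inv, mul_pow, ← inv_pow, ← pow_mul, mul_comm n, pow_mul, mul_assoc]
          gcongr
    have h3 := Tav_Lq ms p0 p1 ENNReal.ofReal_ne_top h2 (one_le_pow₀ D1 (n := n)) s1 hg ig
    rw [lintegral_prod _ ((Tav_meas ms hg).norm.pow_const s).ennreal_ofReal.aemeasurable,
      lint_norm μ q hq fg] at h3
    simp only [s, fun ω => lint_norm μ q hq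
      (av_ae μ q (fun ω : Fin k → G × G => wd (lt (gk c ω)) (T * 2048 ^ n)) fg ω)] at h3
    rw [lintegral_const_mul' _ _ ENNReal.ofReal_ne_top]
    refine (mul_le_mul_right h3 _).trans (le_of_eq ?_)
    rw [← mul_assoc]
    congr 1
    rw [← ENNReal.ofReal_mul (by positivity), ← ENNReal.ofReal_mul (by positivity),
      ← ENNReal.ofReal_add (by positivity) (by positivity), ← ENNReal.ofReal_mul (by positivity)]
    congr 1
    have e1 : (D ^ n) ^ (s - 1) = (2 * W) ^ n := by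
      rw [← D2, ← Real.rpow_natCast, ← Real.rpow_mul (by linarith), mul_comm,
        Real.rpow_mul (by linarith), Real.rpow_natCast]
    change W ^ n * (_ * _ * 4 ^ s + 8 * s / (s - 1) / (D ^ n) ^ (s - 1)) = _
    rw [e1]
    simp only [K, inv_pow, mul_pow, ← pow_mul, mul_comm 2 n, one_div]
    field_simp
    ring
  have fin : ∫⁻ a, ∑' n, φ n a ∂ν ≠ ∞ := by
    rw [lintegral_tsum fun n => (mφ n).aemeasurable]
    refine ne_top_of_le_ne_top ?_ (ENNReal.tsum_le_tsum iφ)
    rw [ENNReal.tsum_mul_right]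
    exact ENNReal.mul_ne_top ((summable_geometric_of_lt_one (by norm_num)
      (by norm_num)).mul_left K).tsum_ofReal_ne_top ENNReal.ofReal_ne_top
  obtain ⟨a, ha⟩ := (ae_lt_top (Measurable.tsum mφ) fin).exists
  refine ⟨a, ?_⟩
  set S := (∑' n, φ n a).toReal
  set F : ℕ → ℝ := fun t => ‖(av (rep μ q) (lt (gk c a)) ^ t) (cen μ q f)‖
  have F0 : ∀ k, 0 ≤ F k := fun k => norm_nonneg _
  have hS : ∀ n, 4096 ^ n * F (T * 2048 ^ n) ≤ max 1 S := fun n => by
    have h4 : φ n a ≤ ∑' n, φ n a := ENNReal.le_tsum n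
    have h5 := ENNReal.toReal_mono ha.ne h4
    simp only [φ] at h5
    rw [← ENNReal.ofReal_mul (by positivity), ENNReal.toReal_ofReal (by positivity), ← av_pow] at h5
    have e : W ^ n * F (T * 2048 ^ n) ^ s = (4096 ^ n * F (T * 2048 ^ n)) ^ s := by
      rw [Real.mul_rpow (by positivity) (F0 _), ← Real.rpow_natCast W, ← Real.rpow_mul (by norm_num),
        mul_comm s, Real.rpow_mul (by norm_num), Real.rpow_natCast]
    rcases le_total (4096 ^ n * F (T * 2048 ^ n)) 1 with h | h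
    · exact h.trans (le_max_left _ _)
    · exact ((Real.self_le_rpow_of_one_le h s1.le).trans (e ▸ h5)).trans (le_max_right _ _)
  refine (summable_schlomilch_iff_of_nonneg (C := 2048) (u := fun n => T * 2048 ^ n) F0
    (fun m n _ h => norm_av_pow_le (rep_iso μ q) _ _ h) (fun n => by positivity)
    (fun m n h => Nat.mul_lt_mul_of_pos_left (Nat.pow_lt_pow_right (by norm_num) h) T0)
    (by norm_num) fun n => ?_).1 ?_
  · simp only [pow_succ, smul_eq_mul, ← mul_assoc]
    omega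
  · refine Summable.of_nonneg_of_le (fun n => mul_nonneg ?_ (F0 _)) (fun n => ?_)
      ((summable_geometric_of_lt_one (r := 2⁻¹) (by norm_num) (by norm_num)).mul_left
        (2047 * T * max 1 S))
    · push_cast
      rw [pow_succ]
      have : (0 : ℝ) ≤ T * 2048 ^ n := by positivity
      linarith
    · push_cast
      have e : ((T : ℝ) * 2048 ^ (n + 1) - T * 2048 ^ n) * F (T * 2048 ^ n) =
          2047 * T * (4096 ^ n * F (T * 2048 ^ n)) * 2⁻¹ ^ n := by
        rw [show (4096 : ℝ) ^ n = 2048 ^ n * 2 ^ n by rw [← mul_pow]; norm_num, inv_pow]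
        field_simp
        ring
      rw [e]
      gcongr
      exact hS n

theorem inv_eq_mean (φ : Lp ℂ q μ →ₗ[ℂ] ℂ) (hφ : ∀ a f, φ (tr μ q a f) = φ f) (f : Lp ℂ q μ) :
    φ f = mean μ q f * φ (Lp.const q μ 1) := by
  obtain ⟨k, k0, a, hs⟩ := exists_summable μ q h1 hq hU hc f
  have : Nonempty (Fin k) := ⟨⟨0, k0⟩⟩
  have hs' := hs.of_norm
  have e1 := hs'.tsum_eq_zero_add
  simp only [pow_succ', mul_apply_eq_comp] at e1
  rw [← (av (rep μ q) (lt (gk c a))).map_tsum hs'] at e1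
  have e2 := congrArg φ e1
  have e3 : ∀ v, φ (av (rep μ q) (lt (gk c a)) v) = φ v := fun v => by
    have c0 : (Fintype.card ((Fin k × Option κ) × Bool × Bool) : ℂ) ≠ 0 := by
      exact_mod_cast Fintype.card_ne_zero
    have e4 : ∀ x, φ (rep μ q x v) = φ v := fun x => hφ _ v
    rw [av_apply, map_smul, map_sum]
    simp only [e4, sum_const, card_univ, nsmul_eq_mul, smul_eq_mul, inv_mul_cancel_left₀ c0]
  rw [map_add, e3, right_eq_add, pow_zero, one_apply_eq_self, cen, map_sub, sub_eq_zero] at e2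
  rw [e2, ← smul_eq_mul, ← map_smul]
  congr 1
  simpa using (Lp.constₗ q μ ℂ).map_smul (mean μ q f) (1 : ℂ)

end Pool.Agent.Lib.MP_cd2b7c_an.NA
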