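import Pool.Agent.Lib.MP_cd2b7c_an.NA.Av
import Pool.Agent.Lib.MP_cd2b7c_an.NA.Marc

/-! The left regular representation on the Lebesgue spaces of a compact group. -/

open Finset MeasureTheory
open scoped ENNReal

namespace Pool.Agent.Lib.MP_cd2b7c_an.NA

variable {G : Type*} [Group G] [TopologicalSpace G] [IsTopologicalGroup G]

theorem wd_cont {A Λ : Type*} [TopologicalSpace A] {σ : A → Λ → G}
    (hσ : ∀ l, Continuous fun a => σ a l) (t : ℕ) (w : Fin t → Λ) :
    Continuous fun a => wd (σ a) t w := by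
  induction t with
  | zero => simpa [wd] using continuous_const
  | succ t ih =>
    rw [← Fin.cons_self_tail w]
    simp only [wd_cons]
    exact (hσ _).mul (ih _)

theorem lt_cont {κ : Type*} (c : κ → G) (k : ℕ) (l : (Fin k × Option κ) × Bool × Bool) :
    Continuous fun ω : Fin k → G × G => lt (gk c ω) l := by
  rcases l with ⟨⟨j, _ | i⟩, _ | _, _ | _⟩ <;>
    simp only [lt, gk, gn, Option.elim, if_true, Bool.false_eq_true, if_false] <;> fun_prop

variable [CompactSpace G] [SecondCountableTopology G] [MeasurableSpace G] [BorelSpace G]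
  (μ : Measure G) [IsProbabilityMeasure μ] [μ.IsMulLeftInvariant] (p : ℝ≥0∞) [Fact (1 ≤ p)]

/-- Left translation. -/
noncomputable def tr (a : G) : Lp ℂ p μ →L[ℂ] Lp ℂ p μ :=
  (Lp.compMeasurePreservingₗᵢ ℂ (fun x => a * x)
    (measurePreserving_mul_left μ a)).toContinuousLinearMap

theorem tr_ae (a : G) (f : Lp ℂ p μ) : tr μ p a f =ᵐ[μ] fun x => f (a * x) :=
  Lp.coeFn_compMeasurePreserving f (measurePreserving_mul_left μ a)

theorem tr_ae' (a : G) {f : Lp ℂ p μ} {g : G → ℂ} (h : f =ᵐ[μ] g) :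
    tr μ p a f =ᵐ[μ] fun x => g (a * x) :=
  (tr_ae μ p a f).trans ((measurePreserving_mul_left μ a).quasiMeasurePreserving.ae_eq_comp h)

theorem norm_tr (a : G) (f : Lp ℂ p μ) : ‖tr μ p a f‖ = ‖f‖ :=
  Lp.norm_compMeasurePreserving f (measurePreserving_mul_left μ a)

theorem tr_cont (hp : p ≠ ∞) (f : Lp ℂ p μ) : Continuous fun a => tr μ p a f :=
  Continuous.compMeasurePreservingLp (f := fun _ : G => f)
    (g := fun a => (ContinuousMap.mk (fun z : G × G => z.1 * z.2) continuous_mul).curry a)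
    continuous_const (ContinuousMap.continuous _) (fun a => measurePreserving_mul_left μ a) hp

/-- The regular representation. -/
noncomputable def rep : G →* (Lp ℂ p μ →L[ℂ] Lp ℂ p μ) where
  toFun a := tr μ p a⁻¹
  map_one' := by
    ext f
    simpa using tr_ae μ p 1 f
  map_mul' a b := by
    ext f
    refine (tr_ae μ p _ f).trans ((tr_ae' μ p a⁻¹ (tr_ae μ p b⁻¹ f)).trans ?_).symm
    exact ae_of_all _ fun x => by simp only [mul_inv_rev, mul_assoc]

theorem rep_iso (a : G) (f : Lp ℂ p μ) : ‖rep μ p a f‖ = ‖f‖ := norm_tr μ p _ f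

/-- The mean. -/
noncomputable def mean : Lp ℂ p μ →L[ℂ] ℂ :=
  LinearMap.mkContinuous
    { toFun := fun f => ∫ x, f x ∂μ
      map_add' := fun f g => by
        rw [integral_congr_ae (Lp.coeFn_add f g)]
        exact integral_add ((Lp.memLp f).integrable Fact.out) ((Lp.memLp g).integrable Fact.out)
      map_smul' := fun c f => by
        rw [integral_congr_ae (Lp.coeFn_smul c f)]
        exact integral_smul c _ } 1 fun f => by
    rw [one_mul, Lp.norm_def]
    refine (norm_integral_le_lintegral_norm _).trans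
      (ENNReal.toReal_mono (Lp.eLpNorm_ne_top f) ?_)
    simp only [ofReal_norm]
    rw [← eLpNorm_one_eq_lintegral_enorm]
    exact eLpNorm_le_eLpNorm_of_exponent_le Fact.out (Lp.aestronglyMeasurable f)

/-- The function minus its mean. -/
noncomputable def cen (f : Lp ℂ p μ) : Lp ℂ p μ := f - Lp.const p μ (mean μ p f)

theorem av_ae {Λ A : Type*} [Fintype Λ] [Nonempty Λ] (σ : A → Λ → G) {f : Lp ℂ p μ} {g : G → ℂ}
    (h : f =ᵐ[μ] g) (a : A) : av (rep μ p) (σ a) (cen μ p f) =ᵐ[μ] fun x =>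
      Tav μ univ (fun _ => (Fintype.card Λ : ℝ)⁻¹) (fun l a => (σ a l)⁻¹) g (a, x) := by
  have h1 : cen μ p f =ᵐ[μ] fun x => g x - ∫ y, g y ∂μ := by
    filter_upwards [Lp.coeFn_sub f (Lp.const p μ (mean μ p f)), h,
      Lp.coeFn_const p μ (mean μ p f)] with x e1 e2 e3
    rw [cen, e1, Pi.sub_apply, e2, e3, ← integral_congr_ae h]
    rfl
  have c0 : (Fintype.card Λ : ℂ) ≠ 0 := by exact_mod_cast Fintype.card_ne_zero
  rw [av_apply]
  filter_upwards [Lp.coeFn_smul (Fintype.card Λ : ℂ)⁻¹ (∑ l, rep μ p (σ a l) (cen μ p f)),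
    Lp.coeFn_fun_finsetSum univ fun l => rep μ p (σ a l) (cen μ p f),
    ae_all_iff.2 fun l => tr_ae' μ p (σ a l)⁻¹ h1] with x e1 e2 e3
  rw [e1, Pi.smul_apply, e2]
  simp only [rep, MonoidHom.coe_mk, OneHom.coe_mk, e3, Tav, sum_sub_distrib, ← mul_sum, sum_const,
    card_univ, nsmul_eq_mul, smul_eq_mul, mul_sub, inv_mul_cancel_left₀ c0]
  push_cast
  rfl

theorem av_cont (hp : p ≠ ∞) {Λ A : Type*} [Fintype Λ] [TopologicalSpace A] {σ : A → Λ → G}
    (hσ : ∀ l, Continuous fun a => σ a l) (f : Lp ℂ p μ) :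
    Continuous fun a => av (rep μ p) (σ a) f := by
  simp only [av_apply]
  exact (continuous_finsetSum _ fun l _ => (tr_cont μ p hp f).comp (hσ l).inv).const_smul
    (Fintype.card Λ : ℂ)⁻¹

theorem lint_norm (hp : p ≠ ∞) {f : Lp ℂ p μ} {g : G → ℂ} (h : f =ᵐ[μ] g) :
    ∫⁻ x, ENNReal.ofReal (‖g x‖ ^ p.toReal) ∂μ = ENNReal.ofReal (‖f‖ ^ p.toReal) := by
  have p0 : p ≠ 0 := (one_pos.trans_le Fact.out).ne'
  have p1 : 0 < p.toReal := ENNReal.toReal_pos p0 hp
  rw [← ENNReal.ofReal_rpow_of_nonneg (norm_nonneg _) p1.le, ofReal_norm, Lp.enorm_def,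
    eLpNorm_eq_lintegral_rpow_enorm_toReal p0 hp, ← ENNReal.rpow_mul, one_div_mul_cancel p1.ne',
    ENNReal.rpow_one]
  refine lintegral_congr_ae (h.mono fun x e => ?_)
  simp only [e]
  rw [← ENNReal.ofReal_rpow_of_nonneg (norm_nonneg _) p1.le, ofReal_norm]

end Pool.Agent.Lib.MP_cd2b7c_an.NA
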